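import Mathlib

/-!
# Moment-curve linear systems of parameters: class (c), cycles, over every field

For a `(d-1)`-cycle `c` with coefficients in a field `k` on the vertex set `Fin n`, with support
complex `|c|`, and for `t : Fin n → k`, the moment-curve system is `θ_j = ∑ v, t_v ^ j * x_v`,
`1 ≤ j ≤ d`. The canonical isomorphism `H^{d-1}(|c|; k) ≅ A^d(|c|)` sends the class of the cochain
dual to a facet `F` to `[F] * x_F`, where `[F]` is the determinant of the vectors
`p_v = (t_v, ..., t_v ^ d)`, `v ∈ F`. So evaluation at the cycle `c` is the functional `Φ` on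
`A^d` with `[F] * Φ (x_F) = c F`; here it is extended by zero to all other degrees and pulled
back to the polynomial ring. The Poincare duality algebra `B(c)` is the polynomial ring modulo
the ideal `{g | ∀ b, Φ (g * b) = 0}`.

Main theorem `result`: for every field `k` and ALL pairwise distinct nonzero `t_0, ..., t_7` in `k`
there is a nonzero `2`-cycle `c` on eight vertices, with coefficients in `k`, such that `B(c)` does
not have the Lefschetz property (for `d = 3`): no `l` of degree one gives an isomorphism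
`B^1 → B^2`. The algebra `B(c)` is the one with Macaulay dual generator the Perazzo cubic
`y_0 y_3^2 + y_1 y_3 y_4 + y_2 y_4^2`.
-/

set_option linter.unusedSectionVars false
set_option linter.unusedVariables false

open MvPolynomial

namespace Pool.Agent.Results.MP_487945_co.CyclesEveryField

universe u

section Defs

variable {k : Type u} [Field k] {n : ℕ}

/-- `c` is a simplicial `(d-1)`-cycle with coefficients in `k` on the vertex set `Fin n`: a
function on finite sets of vertices which vanishes off the sets with `d` elements (oriented by the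
order of the vertices) and whose simplicial boundary is zero. -/
structure IsCycle (d : ℕ) (c : Finset (Fin n) → k) : Prop where
  card_eq : ∀ F, c F ≠ 0 → F.card = d
  boundary_eq_zero : ∀ R : Finset (Fin n), R.card + 1 = d →
    ∑ v ∈ Rᶜ, (-1 : k) ^ (R.filter fun u => u < v).card * c (insert v R) = 0

/-- The support `|c|` of a chain: the complex of all nonempty subsets of the sets `F` with
`c F ≠ 0`. -/
def supportComplex (c : Finset (Fin n) → k) : PreAbstractSimplicialComplex (Fin n) where
  faces := {S | S.Nonempty ∧ ∃ F, c F ≠ 0 ∧ S ⊆ F}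
  isRelLowerSet_faces := by
    rintro S ⟨hS, F, hF, hSF⟩
    exact ⟨hS, fun T hT hTne => ⟨hTne, F, hF, hT.trans hSF⟩⟩

variable (k) in
/-- The face ideal, generated by the squarefree monomials of the nonfaces. -/
noncomputable def faceIdeal (K : PreAbstractSimplicialComplex (Fin n)) :
    Ideal (MvPolynomial (Fin n) k) :=
  Ideal.span {m | ∃ S : Finset (Fin n), S.Nonempty ∧ S ∉ K.faces ∧ m = ∏ v ∈ S, X v}

/-- The linear form `θ_j = ∑ v, t_v ^ j * x_v`. -/
noncomputable def momentForm (t : Fin n → k) (j : ℕ) : MvPolynomial (Fin n) k :=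
  ∑ v, C (t v ^ j) * X v

/-- The ideal generated by `θ_1, ..., θ_d`. -/
noncomputable def momentIdeal (t : Fin n → k) (d : ℕ) : Ideal (MvPolynomial (Fin n) k) :=
  Ideal.span {θ | ∃ j : ℕ, 1 ≤ j ∧ j ≤ d ∧ θ = momentForm t j}

/-- The determinant `[F]` of the vectors `p_v = (t_v, ..., t_v ^ d)`, where `v` runs through the
`d`-element set `F` in increasing order. -/
def bracket (t : Fin n → k) {d : ℕ} (F : Finset (Fin n)) (h : F.card = d) : k :=
  (Matrix.of fun i j : Fin d => t (F.orderEmbOfFin h i) ^ (j.val + 1)).det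

/-- `Φ` is the evaluation functional of the cycle `c`: it vanishes on the face ideal of `|c|` and
on the linear system of parameters (so it is defined on `A(|c|)`), it vanishes in all degrees
other than `d`, and on the top degree it is the evaluation at `c` under the canonical
isomorphism `H^{d-1}(|c|) ≅ A^d(|c|)`, `F^* ↦ [F] x_F`. -/
structure IsEvaluation (d : ℕ) (c : Finset (Fin n) → k) (t : Fin n → k)
    (Φ : MvPolynomial (Fin n) k →ₗ[k] k) : Prop where
  vanish_ideal : ∀ g ∈ faceIdeal k (supportComplex c) ⊔ momentIdeal t d, Φ g = 0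
  vanish_degree : ∀ i, i ≠ d → ∀ g ∈ homogeneousSubmodule (Fin n) k i, Φ g = 0
  eval_facet : ∀ (F : Finset (Fin n)) (h : F.card = d),
    bracket t F h * Φ (∏ v ∈ F, X v) = c F

/-- The kernel of the pairing `(a, b) ↦ Φ (a b)`, an ideal of the polynomial ring; the quotient by
it is the Poincare duality algebra `B(c)`. -/
def pairingKernel (Φ : MvPolynomial (Fin n) k →ₗ[k] k) : Ideal (MvPolynomial (Fin n) k) where
  carrier := {g | ∀ b, Φ (g * b) = 0}
  add_mem' := by
    intro a b ha hb c
    rw [add_mul, map_add, ha c, hb c, add_zero]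
  zero_mem' := by intro b; rw [zero_mul, map_zero]
  smul_mem' := by
    intro r a ha b
    rw [smul_eq_mul, mul_comm r a, mul_assoc]
    exact ha _

/-- The degree `i` piece of the quotient of the polynomial ring by `J`: the image of the forms of
degree `i`. -/
noncomputable def gradedPiece (J : Ideal (MvPolynomial (Fin n) k)) (i : ℕ) :
    Submodule k (MvPolynomial (Fin n) k ⧸ J) :=
  (homogeneousSubmodule (Fin n) k i).map (Ideal.Quotient.mkₐ k J).toLinearMap

/-- The Lefschetz property with socle degree `d`: for some `l` of degree one, multiplication by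
`l ^ (d - 2 i)` is a bijection from degree `i` onto degree `d - i` for all `i` with `2 i ≤ d`. -/
def HardLefschetz (J : Ideal (MvPolynomial (Fin n) k)) (d : ℕ) : Prop :=
  ∃ l ∈ gradedPiece J 1, ∀ i : ℕ, 2 * i ≤ d →
    Set.BijOn (fun a => l ^ (d - 2 * i) * a) (gradedPiece J i) (gradedPiece J (d - i))

end Defs

section Bracket

variable {k : Type u} [Field k] {n : ℕ}

theorem bracket_triple (t : Fin n → k) {a b c : Fin n} (hab : a < b) (hbc : b < c)
    (F : Finset (Fin n)) (hF : F = {a, b, c}) (h : F.card = 3) :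
    bracket t F h = t a * t b * t c * (t b - t a) * (t c - t a) * (t c - t b) := by
  have he : (![a, b, c] : Fin 3 → Fin n) = F.orderEmbOfFin h := by
    apply Finset.orderEmbOfFin_unique h
    · intro x
      rw [hF]
      fin_cases x <;> simp
    · rw [Fin.strictMono_iff_lt_succ]
      intro i
      fin_cases i
      · exact hab
      · exact hbc
  rw [bracket, ← he, Matrix.det_fin_three]
  simp
  ring

end Bracket

section Vanish

variable {k : Type u} [Field k] {n : ℕ}

theorem momentForm_mul_mem (t : Fin n → k) (d j : ℕ) (h1 : 1 ≤ j) (h2 : j ≤ d)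
    (q : MvPolynomial (Fin n) k) : momentForm t j * q ∈ momentIdeal t d :=
  Ideal.mul_mem_right _ _ (Ideal.subset_span ⟨j, h1, h2, rfl⟩)

theorem quad_relation (t : Fin n → k) (α β γ : k) (q : MvPolynomial (Fin n) k)
    (Ψ : MvPolynomial (Fin n) k →ₗ[k] k) (hΨ : ∀ g ∈ momentIdeal t 3, Ψ g = 0) :
    ∑ v, (α * t v ^ 3 + β * t v ^ 2 + γ * t v) * Ψ (X v * q) = 0 := by
  have h3 := hΨ _ (momentForm_mul_mem t 3 3 (by norm_num) le_rfl q)
  have h2 := hΨ _ (momentForm_mul_mem t 3 2 (by norm_num) (by norm_num) q)
  have h1 := hΨ _ (momentForm_mul_mem t 3 1 le_rfl (by norm_num) q)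
  have key : ∀ j, Ψ (momentForm t j * q) = ∑ v, t v ^ j * Ψ (X v * q) := by
    intro j
    rw [momentForm, Finset.sum_mul, map_sum]
    refine Finset.sum_congr rfl fun v _ => ?_
    rw [mul_assoc, ← smul_eq_C_mul, map_smul, smul_eq_mul]
  rw [key] at h1 h2 h3
  have : ∑ v, (α * t v ^ 3 + β * t v ^ 2 + γ * t v) * Ψ (X v * q) =
      α * (∑ v, t v ^ 3 * Ψ (X v * q)) + β * (∑ v, t v ^ 2 * Ψ (X v * q)) +
        γ * (∑ v, t v ^ 1 * Ψ (X v * q)) := by
    rw [Finset.mul_sum, Finset.mul_sum, Finset.mul_sum, ← Finset.sum_add_distrib,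
      ← Finset.sum_add_distrib]
    refine Finset.sum_congr rfl fun v _ => by ring
  rw [this, h1, h2, h3]; ring

theorem vanish_triple (t : Fin n → k) (ht : Function.Injective t) (ht0 : ∀ v, t v ≠ 0)
    (Ψ : MvPolynomial (Fin n) k →ₗ[k] k) (hΨ : ∀ g ∈ momentIdeal t 3, Ψ g = 0)
    (S : Finset (Fin n))
    (H : ∀ F : Finset (Fin n), F.card = 3 → S ⊆ F → Ψ (∏ v ∈ F, X v) = 0) (a b c : Fin n)
    (hS : S ⊆ {a, b, c}) : Ψ (X a * (X b * X c)) = 0 := by
  classical
  have hdist : ∀ a b c : Fin n, a ≠ b → a ≠ c → b ≠ c → S ⊆ {a, b, c} →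
      Ψ (X a * (X b * X c)) = 0 := by
    intro a b c hab hac hbc hS
    have := H {a, b, c} (by
      rw [Finset.card_insert_of_notMem (by simp [hab, hac]), Finset.card_pair hbc]) hS
    rwa [Finset.prod_insert (by simp [hab, hac]), Finset.prod_pair hbc] at this
  have htwo : ∀ a b : Fin n, a ≠ b → S ⊆ {a, b} → Ψ (X a * (X a * X b)) = 0 := by
    intro a b hab hS
    have hrel := quad_relation t 0 1 (- t b) (X a * X b) Ψ hΨ
    rw [Finset.sum_eq_single a] at hrel
    · have hne : (0 * t a ^ 3 + 1 * t a ^ 2 + -t b * t a) ≠ 0 := by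
        have : (0 * t a ^ 3 + 1 * t a ^ 2 + -t b * t a) = t a * (t a - t b) := by ring
        rw [this]
        exact mul_ne_zero (ht0 a) (sub_ne_zero.mpr fun h => hab (ht h))
      exact (mul_eq_zero.mp hrel).resolve_left hne
    · intro v _ hva
      by_cases hvb : v = b
      · subst hvb
        have : (0 * t v ^ 3 + 1 * t v ^ 2 + -t v * t v) = 0 := by ring
        rw [this, zero_mul]
      · rw [hdist v a b hva hvb hab (hS.trans (by
          intro x hx
          simp only [Finset.mem_insert, Finset.mem_singleton] at hx ⊢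
          tauto)), mul_zero]
    · intro h; exact absurd (Finset.mem_univ a) h
  have hone : ∀ a : Fin n, S ⊆ {a} → Ψ (X a * (X a * X a)) = 0 := by
    intro a hS
    have hrel := quad_relation t 0 0 1 (X a * X a) Ψ hΨ
    rw [Finset.sum_eq_single a] at hrel
    · have hne : (0 * t a ^ 3 + 0 * t a ^ 2 + 1 * t a) ≠ 0 := by
        have : (0 * t a ^ 3 + 0 * t a ^ 2 + 1 * t a) = t a := by ring
        rw [this]; exact ht0 a
      exact (mul_eq_zero.mp hrel).resolve_left hne
    · intro v _ hva
      have h1 : (X v * (X a * X a) : MvPolynomial (Fin n) k) = X a * (X a * X v) := by ring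
      rw [h1, htwo a v (Ne.symm hva) (hS.trans (by simp)), mul_zero]
    · intro h; exact absurd (Finset.mem_univ a) h
  by_cases hab : a = b
  · subst hab
    by_cases hac : a = c
    · subst hac
      exact hone a (by simpa using hS)
    · exact htwo a c hac (by simpa using hS)
  · by_cases hac : a = c
    · subst hac
      have h1 : (X a * (X b * X a) : MvPolynomial (Fin n) k) = X a * (X a * X b) := by ring
      rw [h1]
      exact htwo a b hab (hS.trans (by
        intro x hx
        simp only [Finset.mem_insert, Finset.mem_singleton] at hx ⊢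
        tauto))
    · by_cases hbc : b = c
      · subst hbc
        have h1 : (X a * (X b * X b) : MvPolynomial (Fin n) k) = X b * (X b * X a) := by ring
        rw [h1]
        exact htwo b a (Ne.symm hab) (hS.trans (by
          intro x hx
          simp only [Finset.mem_insert, Finset.mem_singleton] at hx ⊢
          tauto))
      · exact hdist a b c hab hac hbc hS

/-- vanishing on all monomials whose support contains `S` -/
theorem vanish_monomial (t : Fin n → k) (ht : Function.Injective t) (ht0 : ∀ v, t v ≠ 0)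
    (Ψ : MvPolynomial (Fin n) k →ₗ[k] k) (hΨ : ∀ g ∈ momentIdeal t 3, Ψ g = 0)
    (hdeg : ∀ i, i ≠ 3 → ∀ g ∈ homogeneousSubmodule (Fin n) k i, Ψ g = 0)
    (S : Finset (Fin n))
    (H : ∀ F : Finset (Fin n), F.card = 3 → S ⊆ F → Ψ (∏ v ∈ F, X v) = 0)
    (m : Fin n →₀ ℕ) (hm : S ⊆ m.support) : Ψ (monomial m 1) = 0 := by
  classical
  by_cases h3 : m.degree = 3
  · have hcard : Multiset.card (Finsupp.toMultiset m) = 3 := by
      rw [Finsupp.card_toMultiset]
      exact h3
    obtain ⟨a, b, c, habc⟩ := Multiset.card_eq_three.mp hcard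
    have hm' : m = Finsupp.single a 1 + (Finsupp.single b 1 + Finsupp.single c 1) := by
      have h1 : ({a, b, c} : Multiset (Fin n)) = {a} + ({b} + {c}) := rfl
      rw [← Finsupp.toMultiset_toFinsupp m, habc, h1, Multiset.toFinsupp_add,
        Multiset.toFinsupp_add, Multiset.toFinsupp_singleton, Multiset.toFinsupp_singleton,
        Multiset.toFinsupp_singleton]
    have hmon : (monomial m (1 : k)) = X a * (X b * X c) := by
      rw [hm', X, X, X, monomial_mul, monomial_mul, one_mul, one_mul]
    rw [hmon]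
    apply vanish_triple t ht ht0 Ψ hΨ S H
    refine hm.trans ?_
    intro x hx
    have hx' : x ∈ Finsupp.toMultiset m := Finsupp.mem_toMultiset m x |>.mpr hx
    rw [habc] at hx'
    simpa using hx'
  · apply hdeg _ h3
    rw [mem_homogeneousSubmodule]
    exact isHomogeneous_monomial _ rfl

end Vanish


section Build

variable {k : Type u} [Field k]

/-- The cycle attached to a functional. -/
noncomputable def cycleOf (t : Fin 8 → k) (Φ : MvPolynomial (Fin 8) k →ₗ[k] k) :
    Finset (Fin 8) → k :=
  fun F => if h : F.card = 3 then bracket t F h * Φ (∏ v ∈ F, X v) else 0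

theorem isCycle_cycleOf (t : Fin 8 → k) (Φ : MvPolynomial (Fin 8) k →ₗ[k] k)
    (hΦ : ∀ g ∈ momentIdeal t 3, Φ g = 0) : IsCycle 3 (cycleOf t Φ) := by
  classical
  constructor
  · intro F hF
    by_contra h
    apply hF
    simp [cycleOf, h]
  · intro R hR
    have hR2 : R.card = 2 := by omega
    obtain ⟨a, b, hab, rfl⟩ : ∃ a b, a < b ∧ R = {a, b} := by
      obtain ⟨a, b, hab, rfl⟩ := Finset.card_eq_two.mp hR2
      rcases lt_or_gt_of_ne hab with h | h
      · exact ⟨a, b, h, rfl⟩
      · exact ⟨b, a, h, Finset.pair_comm a b⟩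
    have hterm : ∀ v ∈ ({a, b} : Finset (Fin 8))ᶜ,
        (-1 : k) ^ (({a, b} : Finset (Fin 8)).filter fun u => u < v).card *
          cycleOf t Φ (insert v {a, b}) =
        (t a * t b * (t b - t a)) * ((1 * t v ^ 3 + (-(t a + t b)) * t v ^ 2 + (t a * t b) * t v) *
          Φ (X v * (X a * X b))) := by
      intro v hv
      have hva : v ≠ a := by rintro rfl; simp at hv
      have hvb : v ≠ b := by rintro rfl; simp at hv
      have hcard : (insert v ({a, b} : Finset (Fin 8))).card = 3 := by
        rw [Finset.card_insert_of_notMem (by simp [hva, hvb]), Finset.card_pair hab.ne]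
      have hprod : ∏ u ∈ insert v ({a, b} : Finset (Fin 8)), (X u : MvPolynomial (Fin 8) k) =
          X v * (X a * X b) := by
        rw [Finset.prod_insert (by simp [hva, hvb]), Finset.prod_pair hab.ne]
      rw [cycleOf, dif_pos hcard, hprod]
      rcases lt_or_gt_of_ne hva with h1 | h1
      · -- v < a < b
        have hvb' : v < b := h1.trans hab
        have hf : (({a, b} : Finset (Fin 8)).filter fun u => u < v) = ∅ := by
          ext u; simp only [Finset.mem_filter, Finset.mem_insert, Finset.mem_singleton,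
            Finset.notMem_empty, iff_false, not_and, not_lt]
          rintro (rfl | rfl)
          · exact h1.le
          · exact hvb'.le
        rw [hf, Finset.card_empty, pow_zero, bracket_triple t h1 hab _ rfl hcard]
        ring
      · rcases lt_or_gt_of_ne hvb with h2 | h2
        · -- a < v < b
          have hf : (({a, b} : Finset (Fin 8)).filter fun u => u < v) = {a} := by
            ext u; simp only [Finset.mem_filter, Finset.mem_insert, Finset.mem_singleton]
            constructor
            · rintro ⟨rfl | rfl, h⟩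
              · rfl
              · exact absurd h (not_lt.mpr h2.le)
            · rintro rfl
              exact ⟨Or.inl rfl, h1⟩
          rw [hf, Finset.card_singleton, pow_one, bracket_triple t h1 h2 _ (by
            ext u; simp only [Finset.mem_insert, Finset.mem_singleton]; tauto) hcard]
          ring
        · -- a < b < v
          have hf : (({a, b} : Finset (Fin 8)).filter fun u => u < v) = {a, b} := by
            ext u; simp only [Finset.mem_filter, Finset.mem_insert, Finset.mem_singleton]
            constructor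
            · rintro ⟨h, -⟩; exact h
            · rintro (rfl | rfl)
              · exact ⟨Or.inl rfl, h1⟩
              · exact ⟨Or.inr rfl, h2⟩
          rw [hf, Finset.card_pair hab.ne, bracket_triple t hab h2 _ (by
            ext u; simp only [Finset.mem_insert, Finset.mem_singleton]; tauto) hcard]
          ring
    rw [Finset.sum_congr rfl hterm, ← Finset.mul_sum]
    have hrel := quad_relation t 1 (-(t a + t b)) (t a * t b) (X a * X b) Φ hΦ
    have hsub : ∑ v ∈ ({a, b} : Finset (Fin 8))ᶜ,
        (1 * t v ^ 3 + (-(t a + t b)) * t v ^ 2 + (t a * t b) * t v) *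
          Φ (X v * (X a * X b)) = 0 := by
      rw [← hrel]
      apply Finset.sum_subset (Finset.subset_univ _)
      intro v _ hv
      simp only [Finset.mem_compl, Finset.mem_insert, Finset.mem_singleton, not_not] at hv
      rcases hv with rfl | rfl
      · have : (1 * t v ^ 3 + (-(t v + t b)) * t v ^ 2 + (t v * t b) * t v) = 0 := by ring
        rw [this, zero_mul]
      · have : (1 * t v ^ 3 + (-(t a + t v)) * t v ^ 2 + (t a * t v) * t v) = 0 := by ring
        rw [this, zero_mul]
    rw [hsub, mul_zero]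

theorem bracket_ne_zero (t : Fin 8 → k) (ht : Function.Injective t) (ht0 : ∀ v, t v ≠ 0)
    (F : Finset (Fin 8)) (h : F.card = 3) : bracket t F h ≠ 0 := by
  classical
  set e := F.orderEmbOfFin h with he
  have h01 : e 0 < e 1 := e.strictMono (by decide)
  have h12 : e 1 < e 2 := e.strictMono (by decide)
  have hF : F = {e 0, e 1, e 2} := by
    have := Finset.image_orderEmbOfFin_univ F h
    rw [← this]
    ext x
    simp only [Finset.mem_image, Finset.mem_univ, true_and, Finset.mem_insert,
      Finset.mem_singleton]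
    constructor
    · rintro ⟨i, rfl⟩
      fin_cases i
      · exact Or.inl rfl
      · exact Or.inr (Or.inl rfl)
      · exact Or.inr (Or.inr rfl)
    · rintro (h | h | h)
      · exact ⟨0, h.symm⟩
      · exact ⟨1, h.symm⟩
      · exact ⟨2, h.symm⟩
  rw [bracket_triple t h01 h12 F hF h]
  have hs : ∀ x y, x ≠ y → t x - t y ≠ 0 := fun x y hxy => sub_ne_zero.mpr fun h => hxy (ht h)
  refine mul_ne_zero (mul_ne_zero (mul_ne_zero (mul_ne_zero (mul_ne_zero (ht0 _) (ht0 _))
    (ht0 _)) (hs _ _ h01.ne')) (hs _ _ (h01.trans h12).ne')) (hs _ _ h12.ne')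

theorem isEvaluation_cycleOf (t : Fin 8 → k) (ht : Function.Injective t) (ht0 : ∀ v, t v ≠ 0)
    (Φ : MvPolynomial (Fin 8) k →ₗ[k] k)
    (hΦ : ∀ g ∈ momentIdeal t 3, Φ g = 0)
    (hdeg : ∀ i, i ≠ 3 → ∀ g ∈ homogeneousSubmodule (Fin 8) k i, Φ g = 0) :
    IsEvaluation 3 (cycleOf t Φ) t Φ := by
  classical
  refine ⟨?_, hdeg, ?_⟩
  · -- vanishing on the ideal
    have hface : ∀ g ∈ faceIdeal k (supportComplex (cycleOf t Φ)), ∀ r, Φ (r * g) = 0 := by
      intro g hg
      rw [faceIdeal] at hg
      induction hg using Submodule.span_induction with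
      | mem x hx =>
        obtain ⟨S, hS, hSK, rfl⟩ := hx
        have hH : ∀ F : Finset (Fin 8), F.card = 3 → S ⊆ F → Φ (∏ v ∈ F, X v) = 0 := by
          intro F hF hSF
          by_contra hne
          apply hSK
          refine ⟨hS, F, ?_, hSF⟩
          rw [cycleOf, dif_pos hF]
          exact mul_ne_zero (bracket_ne_zero t ht ht0 F hF) hne
        intro r
        induction r using MvPolynomial.induction_on' with
        | monomial m a =>
          have hprod : (∏ v ∈ S, X v : MvPolynomial (Fin 8) k) =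
              monomial (∑ v ∈ S, Finsupp.single v 1) 1 := by
            rw [monomial_sum_one]
            rfl
          have hmul : (monomial m a * ∏ v ∈ S, X v : MvPolynomial (Fin 8) k) =
              a • monomial (m + ∑ v ∈ S, Finsupp.single v 1) 1 := by
            rw [hprod, monomial_mul, smul_monomial, smul_eq_mul]
          rw [hmul, map_smul, vanish_monomial t ht ht0 Φ hΦ hdeg S hH, smul_zero]
          intro v hv
          rw [Finsupp.mem_support_iff, Finsupp.add_apply, Finsupp.finsetSum_apply,
            ← Finset.add_sum_erase _ _ hv, Finsupp.single_eq_same]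
          omega
        | add p q hp hq => rw [add_mul, map_add, hp, hq, add_zero]
      | zero => intro r; rw [mul_zero, map_zero]
      | add x y hx hy hx' hy' => intro r; rw [mul_add, map_add, hx' r, hy' r, add_zero]
      | smul a x hx hx' => intro r; rw [smul_eq_mul, ← mul_assoc]; exact hx' _
    intro g hg
    obtain ⟨g1, hg1, g2, hg2, rfl⟩ := Submodule.mem_sup.mp hg
    rw [map_add, hΦ _ hg2, add_zero]
    simpa using hface g1 hg1 1
  · intro F h
    rw [cycleOf, dif_pos h]


/-- coefficients of the substitution -/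
noncomputable def kap (t : Fin 8 → k) (v : Fin 8) : k :=
  (t v * ∏ u ∈ Finset.univ.erase v, (t v - t u))⁻¹

theorem kap_ne_zero (t : Fin 8 → k) (ht : Function.Injective t) (ht0 : ∀ v, t v ≠ 0)
    (v : Fin 8) : kap t v ≠ 0 := by
  apply inv_ne_zero
  apply mul_ne_zero (ht0 v)
  rw [Finset.prod_ne_zero_iff]
  intro u hu
  exact sub_ne_zero.mpr fun h => (Finset.ne_of_mem_erase hu) (ht h).symm

/-- The substitution `x_v ↦ h(t_v) / (t_v Z'(t_v))`. -/
noncomputable def subst (t : Fin 8 → k) : MvPolynomial (Fin 8) k →ₐ[k] MvPolynomial (Fin 5) k :=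
  aeval fun v => ∑ i : Fin 5, C (kap t v * t v ^ i.val) * X i

/-- The dual of the Perazzo cubic. -/
noncomputable def perazzo : MvPolynomial (Fin 5) k →ₗ[k] k :=
  lcoeff k (Finsupp.single 0 1 + (Finsupp.single 3 1 + Finsupp.single 3 1)) +
    lcoeff k (Finsupp.single 1 1 + (Finsupp.single 3 1 + Finsupp.single 4 1)) +
    lcoeff k (Finsupp.single 2 1 + (Finsupp.single 4 1 + Finsupp.single 4 1))

theorem perazzo_apply (q : MvPolynomial (Fin 5) k) : perazzo q =
    coeff (Finsupp.single 0 1 + (Finsupp.single 3 1 + Finsupp.single 3 1)) q +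
    coeff (Finsupp.single 1 1 + (Finsupp.single 3 1 + Finsupp.single 4 1)) q +
    coeff (Finsupp.single 2 1 + (Finsupp.single 4 1 + Finsupp.single 4 1)) q := rfl

noncomputable def bad (t : Fin 8 → k) : MvPolynomial (Fin 8) k →ₗ[k] k :=
  perazzo.comp (subst t).toLinearMap

theorem subst_momentForm (t : Fin 8 → k) (ht : Function.Injective t) (ht0 : ∀ v, t v ≠ 0)
    (j : ℕ) (h1 : 1 ≤ j) (h3 : j ≤ 3) : subst t (momentForm t j) = 0 := by
  classical
  rw [momentForm, map_sum]
  have : ∀ v ∈ (Finset.univ : Finset (Fin 8)), subst t (C (t v ^ j) * X v) =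
      ∑ i : Fin 5, C (t v ^ j * (kap t v * t v ^ i.val)) * X i := by
    intro v _
    rw [map_mul, subst, aeval_X, aeval_C, Finset.mul_sum]
    refine Finset.sum_congr rfl fun i _ => ?_
    rw [← mul_assoc, ← MvPolynomial.algebraMap_eq, ← map_mul]
  rw [Finset.sum_congr rfl this, Finset.sum_comm]
  apply Finset.sum_eq_zero
  intro i _
  rw [← Finset.sum_mul, ← map_sum]
  have hz : ∑ v, t v ^ j * (kap t v * t v ^ i.val) = 0 := by
    have hc := Lagrange.coeff_eq_sum (F := k) (s := (Finset.univ : Finset (Fin 8))) (v := t)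
      ht.injOn (P := Polynomial.X ^ (j - 1 + i.val)) (by
        rw [Polynomial.degree_X_pow, Finset.card_univ, Fintype.card_fin]
        exact_mod_cast (by omega : j - 1 + i.val < 8))
    rw [Finset.card_univ, Fintype.card_fin, Polynomial.coeff_X_pow, if_neg (by omega)] at hc
    rw [hc]
    refine Finset.sum_congr rfl fun v _ => ?_
    rw [kap, Polynomial.eval_pow, Polynomial.eval_X, mul_inv, pow_add]
    have hj : t v ^ j = t v ^ (j - 1) * t v := by
      rw [← pow_succ]; congr 1; omega
    rw [hj]
    have := ht0 v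
    field_simp
  rw [hz, map_zero, zero_mul]

theorem subst_isHomogeneous (t : Fin 8 → k) {i : ℕ} {g : MvPolynomial (Fin 8) k}
    (hg : g.IsHomogeneous i) : (subst t g).IsHomogeneous i := by
  have h := hg.aeval (fun v => ∑ i : Fin 5, C (kap t v * t v ^ i.val) * X i)
    (n := 1) (fun v => by
      apply IsHomogeneous.sum
      intro i _
      have := (isHomogeneous_C (Fin 5) (kap t v * t v ^ i.val)).mul (isHomogeneous_X k i)
      simpa using this)
  simpa [subst] using h

theorem bad_momentIdeal (t : Fin 8 → k) (ht : Function.Injective t) (ht0 : ∀ v, t v ≠ 0) :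
    ∀ g ∈ momentIdeal t 3, bad t g = 0 := by
  have hle : momentIdeal t 3 ≤ RingHom.ker (subst t).toRingHom := by
    rw [momentIdeal, Ideal.span_le]
    rintro _ ⟨j, h1, h3, rfl⟩
    exact subst_momentForm t ht ht0 j h1 h3
  intro g hg
  have : subst t g = 0 := hle hg
  change perazzo (subst t g) = 0
  rw [this, map_zero]

theorem bad_degree (t : Fin 8 → k) :
    ∀ i, i ≠ 3 → ∀ g ∈ homogeneousSubmodule (Fin 8) k i, bad t g = 0 := by
  intro i hi g hg
  have h := subst_isHomogeneous t (show g.IsHomogeneous i from hg)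
  change perazzo (subst t g) = 0
  rw [perazzo_apply, h.coeff_eq_zero (by simp only [map_add, Finsupp.degree_single]; omega),
    h.coeff_eq_zero (by simp only [map_add, Finsupp.degree_single]; omega),
    h.coeff_eq_zero (by simp only [map_add, Finsupp.degree_single]; omega)]
  simp


theorem perazzo_X0 (p : MvPolynomial (Fin 5) k) :
    perazzo (X 0 * p) = coeff (Finsupp.single 3 1 + Finsupp.single 3 1) p := by
  rw [perazzo_apply, coeff_X_mul, coeff_X_mul', coeff_X_mul', if_neg (by simp), if_neg (by simp)]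
  ring

theorem perazzo_X1 (p : MvPolynomial (Fin 5) k) :
    perazzo (X 1 * p) = coeff (Finsupp.single 3 1 + Finsupp.single 4 1) p := by
  rw [perazzo_apply, coeff_X_mul, coeff_X_mul', coeff_X_mul', if_neg (by simp), if_neg (by simp)]
  ring

theorem perazzo_X2 (p : MvPolynomial (Fin 5) k) :
    perazzo (X 2 * p) = coeff (Finsupp.single 4 1 + Finsupp.single 4 1) p := by
  rw [perazzo_apply, coeff_X_mul, coeff_X_mul', coeff_X_mul', if_neg (by simp), if_neg (by simp)]
  ring

theorem coeff33 (l : Fin 5 → k) (q : MvPolynomial (Fin 5) k) :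
    coeff (Finsupp.single 3 1 + Finsupp.single 3 1) ((∑ i, C (l i) * X i) * q) =
      l 3 * coeff (Finsupp.single 3 1) q := by
  rw [Finset.sum_mul, coeff_sum, Finset.sum_eq_single 3]
  · rw [mul_assoc, coeff_C_mul, coeff_X_mul]
  · intro b _ hb
    rw [mul_assoc, coeff_C_mul, coeff_X_mul', if_neg, mul_zero]
    simp [Ne.symm hb]
  · intro h; exact absurd (Finset.mem_univ _) h

theorem coeff44 (l : Fin 5 → k) (q : MvPolynomial (Fin 5) k) :
    coeff (Finsupp.single 4 1 + Finsupp.single 4 1) ((∑ i, C (l i) * X i) * q) =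
      l 4 * coeff (Finsupp.single 4 1) q := by
  rw [Finset.sum_mul, coeff_sum, Finset.sum_eq_single 4]
  · rw [mul_assoc, coeff_C_mul, coeff_X_mul]
  · intro b _ hb
    rw [mul_assoc, coeff_C_mul, coeff_X_mul', if_neg, mul_zero]
    simp [Ne.symm hb]
  · intro h; exact absurd (Finset.mem_univ _) h

theorem coeff34 (l : Fin 5 → k) (q : MvPolynomial (Fin 5) k) :
    coeff (Finsupp.single 3 1 + Finsupp.single 4 1) ((∑ i, C (l i) * X i) * q) =
      l 3 * coeff (Finsupp.single 4 1) q + l 4 * coeff (Finsupp.single 3 1) q := by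
  rw [Finset.sum_mul, coeff_sum, Fin.sum_univ_five]
  have h0 : ∀ b : Fin 5, b ≠ 3 → b ≠ 4 →
      coeff (Finsupp.single 3 1 + Finsupp.single 4 1) (C (l b) * X b * q) = 0 := by
    intro b h3 h4
    rw [mul_assoc, coeff_C_mul, coeff_X_mul', if_neg, mul_zero]
    simp [Ne.symm h3, Ne.symm h4]
  rw [h0 0 (by decide) (by decide), h0 1 (by decide) (by decide), h0 2 (by decide) (by decide)]
  have h3 : coeff (Finsupp.single 3 1 + Finsupp.single 4 1) (C (l 3) * X 3 * q) =
      l 3 * coeff (Finsupp.single 4 1) q := by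
    rw [mul_assoc, coeff_C_mul, coeff_X_mul]
  have h4 : coeff (Finsupp.single 3 1 + Finsupp.single 4 1) (C (l 4) * X 4 * q) =
      l 4 * coeff (Finsupp.single 3 1) q := by
    rw [mul_assoc, coeff_C_mul, add_comm, coeff_X_mul]
  rw [h3, h4]; ring

theorem perazzo_main (w0 w1 w2 : k) (l : Fin 5 → k) (q : MvPolynomial (Fin 5) k) :
    perazzo ((C w0 * X 0 + C w1 * X 1 + C w2 * X 2) * ((∑ i, C (l i) * X i) * q)) =
      w0 * (l 3 * coeff (Finsupp.single 3 1) q) +
      w1 * (l 3 * coeff (Finsupp.single 4 1) q + l 4 * coeff (Finsupp.single 3 1) q) +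
      w2 * (l 4 * coeff (Finsupp.single 4 1) q) := by
  have hC : ∀ (a : k) (p : MvPolynomial (Fin 5) k), perazzo (C a * p) = a * perazzo p := by
    intro a p
    rw [← smul_eq_C_mul, map_smul, smul_eq_mul]
  rw [add_mul, add_mul, map_add, map_add, mul_assoc, mul_assoc, mul_assoc, hC, hC, hC,
    perazzo_X0, perazzo_X1, perazzo_X2, coeff33, coeff34, coeff44]

/-- preimages of the variables -/
noncomputable def pre (t : Fin 8 → k) (i : Fin 5) : MvPolynomial (Fin 8) k :=
  ∑ v, C ((kap t v)⁻¹ * (Lagrange.basis Finset.univ t v).coeff i.val) * X v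

theorem pre_isHomogeneous (t : Fin 8 → k) (i : Fin 5) : (pre t i).IsHomogeneous 1 := by
  apply IsHomogeneous.sum
  intro v _
  have := (isHomogeneous_C (Fin 8)
    ((kap t v)⁻¹ * (Lagrange.basis Finset.univ t v).coeff i.val)).mul (isHomogeneous_X k v)
  simpa using this

theorem subst_pre (t : Fin 8 → k) (ht : Function.Injective t) (ht0 : ∀ v, t v ≠ 0)
    (i : Fin 5) : subst t (pre t i) = X i := by
  classical
  rw [pre, map_sum]
  have : ∀ v ∈ (Finset.univ : Finset (Fin 8)),
      subst t (C ((kap t v)⁻¹ * (Lagrange.basis Finset.univ t v).coeff i.val) * X v) =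
      ∑ j : Fin 5, C (t v ^ j.val * (Lagrange.basis Finset.univ t v).coeff i.val) * X j := by
    intro v _
    rw [map_mul, subst, aeval_X, aeval_C, Finset.mul_sum]
    refine Finset.sum_congr rfl fun j _ => ?_
    rw [← mul_assoc, ← MvPolynomial.algebraMap_eq, ← map_mul]
    congr 2
    have := kap_ne_zero t ht ht0 v
    field_simp
  rw [Finset.sum_congr rfl this, Finset.sum_comm]
  have hcoef : ∀ j : Fin 5, ∑ v, t v ^ j.val * (Lagrange.basis Finset.univ t v).coeff i.val =
      if i = j then 1 else 0 := by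
    intro j
    have hint := Lagrange.eq_interpolate (F := k) (s := (Finset.univ : Finset (Fin 8))) (v := t)
      (f := Polynomial.X ^ j.val) ht.injOn (by
        rw [Polynomial.degree_X_pow, Finset.card_univ, Fintype.card_fin]
        exact_mod_cast (by omega : j.val < 8))
    have hc := congrArg (fun p => Polynomial.coeff p i.val) hint
    simp only [Lagrange.interpolate_apply, Polynomial.finsetSum_coeff, Polynomial.coeff_C_mul,
      Polynomial.eval_pow, Polynomial.eval_X, Polynomial.coeff_X_pow] at hc
    rw [← hc]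
    simp [Fin.ext_iff]
  rw [Finset.sum_eq_single i]
  · rw [← Finset.sum_mul, ← map_sum, hcoef, if_pos rfl, map_one, one_mul]
  · intro j _ hj
    rw [← Finset.sum_mul, ← map_sum, hcoef, if_neg (Ne.symm hj), map_zero, zero_mul]
  · intro h; exact absurd (Finset.mem_univ i) h

theorem linear_form (q : MvPolynomial (Fin 5) k) (hq : q.IsHomogeneous 1) :
    ∃ l : Fin 5 → k, q = ∑ i, C (l i) * X i := by
  have hq' : q ∈ homogeneousSubmodule (Fin 5) k 1 := hq
  rw [homogeneousSubmodule_one_eq_span_X] at hq'
  induction hq' using Submodule.span_induction with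
  | mem x hx =>
    obtain ⟨j, rfl⟩ := hx
    refine ⟨fun i => if i = j then 1 else 0, ?_⟩
    rw [Finset.sum_eq_single j]
    · simp
    · intro b _ hb; simp [hb]
    · intro h; exact absurd (Finset.mem_univ j) h
  | zero => exact ⟨0, by simp⟩
  | add x y hx hy hx' hy' =>
    rw [← homogeneousSubmodule_one_eq_span_X] at hx hy
    obtain ⟨l, hl⟩ := hx' hx
    obtain ⟨m, hm⟩ := hy' hy
    refine ⟨l + m, ?_⟩
    rw [hl, hm, ← Finset.sum_add_distrib]
    refine Finset.sum_congr rfl fun i _ => ?_
    rw [Pi.add_apply, map_add, add_mul]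
  | smul a x hx hx' =>
    rw [← homogeneousSubmodule_one_eq_span_X] at hx
    obtain ⟨l, hl⟩ := hx' hx
    refine ⟨a • l, ?_⟩
    rw [hl, Finset.smul_sum]
    refine Finset.sum_congr rfl fun i _ => ?_
    rw [Pi.smul_apply, smul_eq_mul, map_mul, smul_eq_C_mul, mul_assoc]

theorem not_hardLefschetz_bad (t : Fin 8 → k) (ht : Function.Injective t)
    (ht0 : ∀ v, t v ≠ 0) : ¬ HardLefschetz (pairingKernel (bad t)) 3 := by
  rintro ⟨l, hl, H⟩
  obtain ⟨Lx, hLx, rfl⟩ := hl
  obtain ⟨lc, hlc⟩ := linear_form (subst t Lx) (subst_isHomogeneous t hLx)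
  -- the kernel vector
  obtain ⟨w0, w1, w2, hw, e1, e2⟩ : ∃ w0 w1 w2 : k, ¬ (w0 = 0 ∧ w1 = 0 ∧ w2 = 0) ∧
      w0 * lc 3 + w1 * lc 4 = 0 ∧ w1 * lc 3 + w2 * lc 4 = 0 := by
    by_cases h : lc 3 = 0 ∧ lc 4 = 0
    · exact ⟨1, 0, 0, by simp, by rw [h.1, h.2]; ring, by rw [h.1, h.2]; ring⟩
    · refine ⟨lc 4 ^ 2, - (lc 3 * lc 4), lc 3 ^ 2, ?_, by ring, by ring⟩
      rintro ⟨h1, -, h2⟩
      exact h ⟨pow_eq_zero_iff two_ne_zero |>.mp h2, pow_eq_zero_iff two_ne_zero |>.mp h1⟩
  set W : MvPolynomial (Fin 8) k := C w0 * pre t 0 + C w1 * pre t 1 + C w2 * pre t 2 with hW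
  have hWhom : W.IsHomogeneous 1 := by
    have : ∀ (a : k) (i : Fin 5), (C a * pre t i).IsHomogeneous 1 := by
      intro a i
      have := (isHomogeneous_C (Fin 8) a).mul (pre_isHomogeneous t i)
      simpa using this
    exact ((this _ _).add (this _ _)).add (this _ _)
  have hWsub : subst t W = C w0 * X 0 + C w1 * X 1 + C w2 * X 2 := by
    rw [hW, map_add, map_add, map_mul, map_mul, map_mul, subst_pre t ht ht0, subst_pre t ht ht0,
      subst_pre t ht ht0]
    simp [subst]
  have hbad : ∀ g, bad t g = perazzo (subst t g) := fun g => rfl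
  -- `W` is not in the kernel
  have hWnot : W ∉ pairingKernel (bad t) := by
    intro hmem
    have hmem' : ∀ b, bad t (W * b) = 0 := hmem
    have key : ∀ i j : Fin 5, perazzo ((C w0 * X 0 + C w1 * X 1 + C w2 * X 2) *
        ((∑ a, C ((Pi.single i 1 : Fin 5 → k) a) * X a) * (X j : MvPolynomial (Fin 5) k))) = 0 := by
      intro i j
      have h1 := hmem' (pre t i * pre t j)
      rw [hbad, map_mul (subst t), map_mul (subst t), subst_pre t ht ht0, subst_pre t ht ht0,
        hWsub] at h1
      have h2 : (∑ a, C ((Pi.single i 1 : Fin 5 → k) a) * X a : MvPolynomial (Fin 5) k) = X i := by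
        rw [Finset.sum_eq_single i]
        · simp
        · intro b _ hb; simp [hb]
        · intro h; exact absurd (Finset.mem_univ i) h
      rw [h2]; exact h1
    apply hw
    have k33 := key 3 3
    have k34 := key 3 4
    have k44 := key 4 4
    rw [perazzo_main] at k33 k34 k44
    have h34 : (Finsupp.single (3 : Fin 5) 1 : Fin 5 →₀ ℕ) ≠ Finsupp.single 4 1 := by
      intro h
      have := (Finsupp.single_left_inj one_ne_zero).mp h
      exact absurd this (by decide)
    simp [coeff_X, h34, h34.symm] at k33 k34 k44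
    exact ⟨k33, k34, k44⟩
  have hzero : (Ideal.Quotient.mkₐ k (pairingKernel (bad t))).toLinearMap Lx *
      (Ideal.Quotient.mkₐ k (pairingKernel (bad t))).toLinearMap W = 0 := by
    have : (Ideal.Quotient.mkₐ k (pairingKernel (bad t))).toLinearMap Lx *
      (Ideal.Quotient.mkₐ k (pairingKernel (bad t))).toLinearMap W =
      Ideal.Quotient.mk (pairingKernel (bad t)) (Lx * W) := by
      rw [map_mul]; rfl
    rw [this, Ideal.Quotient.eq_zero_iff_mem]
    intro b
    rw [hbad, map_mul (subst t), map_mul (subst t), hWsub, hlc]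
    have h1 : (∑ i, C (lc i) * X i) * (C w0 * X 0 + C w1 * X 1 + C w2 * X 2) * subst t b =
        (C w0 * X 0 + C w1 * X 1 + C w2 * X 2) * ((∑ i, C (lc i) * X i) * subst t b) := by ring
    rw [h1, perazzo_main]
    linear_combination coeff (Finsupp.single 3 1) (subst t b) * e1 +
      coeff (Finsupp.single 4 1) (subst t b) * e2
  have hinj := (H 1 (by norm_num)).injOn
    (show (Ideal.Quotient.mkₐ k (pairingKernel (bad t))).toLinearMap W ∈
      (gradedPiece (pairingKernel (bad t)) 1 : Set _) from ⟨W, hWhom, rfl⟩)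
    (Submodule.zero_mem _)
    (by
      change (Ideal.Quotient.mkₐ k (pairingKernel (bad t))).toLinearMap Lx ^ (3 - 2 * 1) * _ =
        (Ideal.Quotient.mkₐ k (pairingKernel (bad t))).toLinearMap Lx ^ (3 - 2 * 1) * 0
      norm_num
      exact hzero)
  apply hWnot
  rw [← Ideal.Quotient.eq_zero_iff_mem]
  exact hinj

theorem functional_eq_zero (t : Fin 8 → k) (ht : Function.Injective t) (ht0 : ∀ v, t v ≠ 0)
    (Ψ : MvPolynomial (Fin 8) k →ₗ[k] k) (hΨ : ∀ g ∈ momentIdeal t 3, Ψ g = 0)
    (hdeg : ∀ i, i ≠ 3 → ∀ g ∈ homogeneousSubmodule (Fin 8) k i, Ψ g = 0)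
    (H : ∀ F : Finset (Fin 8), F.card = 3 → Ψ (∏ v ∈ F, X v) = 0) : Ψ = 0 := by
  apply MvPolynomial.basisMonomials (Fin 8) k |>.ext
  intro m
  rw [coe_basisMonomials]
  rw [vanish_monomial t ht ht0 Ψ hΨ hdeg ∅ (fun F hF _ => H F hF) m (Finset.empty_subset _)]
  rfl

theorem evaluation_unique (t : Fin 8 → k) (ht : Function.Injective t) (ht0 : ∀ v, t v ≠ 0)
    (Φ : MvPolynomial (Fin 8) k →ₗ[k] k) (hΦ : IsEvaluation 3 (cycleOf t (bad t)) t Φ) :
    Φ = bad t := by
  classical
  have hz : Φ - bad t = 0 := by
    apply functional_eq_zero t ht ht0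
    · intro g hg
      rw [LinearMap.sub_apply, hΦ.vanish_ideal g (Ideal.mem_sup_right hg),
        bad_momentIdeal t ht ht0 g hg, sub_zero]
    · intro i hi g hg
      rw [LinearMap.sub_apply, hΦ.vanish_degree i hi g hg, bad_degree t i hi g hg, sub_zero]
    · intro F hF
      have h1 := hΦ.eval_facet F hF
      rw [cycleOf, dif_pos hF] at h1
      have h2 := mul_left_cancel₀ (bracket_ne_zero t ht ht0 F hF) h1
      rw [LinearMap.sub_apply, h2, sub_self]
  exact sub_eq_zero.mp hz

theorem bad_ne_zero (t : Fin 8 → k) (ht : Function.Injective t) (ht0 : ∀ v, t v ≠ 0) :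
    bad t ≠ 0 := by
  intro h
  have h1 : bad t (pre t 0 * (pre t 3 * pre t 3)) = 0 := by rw [h]; rfl
  have h2 : bad t (pre t 0 * (pre t 3 * pre t 3)) =
      perazzo (subst t (pre t 0 * (pre t 3 * pre t 3))) := rfl
  rw [h2, map_mul (subst t), map_mul (subst t), subst_pre t ht ht0, subst_pre t ht ht0,
    perazzo_X0, coeff_X_mul, coeff_X, if_pos rfl] at h1
  exact one_ne_zero h1

/-- **Main theorem.** Let `k` be any field and let `t_0, ..., t_7` be any pairwise distinct nonzero
elements of `k`. Then there is a nonzero `2`-cycle `c` with coefficients in `k` on eight vertices,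
which has an evaluation functional, and such that for every evaluation functional `Φ` of `c` (it is
in fact unique) the algebra `B(c)` does not have the Lefschetz property. -/
theorem result (k : Type u) [Field k] (t : Fin 8 → k) (ht : Function.Injective t)
    (ht0 : ∀ v, t v ≠ 0) :
    ∃ c : Finset (Fin 8) → k, IsCycle 3 c ∧ c ≠ 0 ∧ (∃ Φ, IsEvaluation 3 c t Φ) ∧
      ∀ Φ, IsEvaluation 3 c t Φ → ¬ HardLefschetz (pairingKernel Φ) 3 := by
  refine ⟨cycleOf t (bad t), isCycle_cycleOf t _ (bad_momentIdeal t ht ht0), ?_,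
    ⟨bad t, isEvaluation_cycleOf t ht ht0 _ (bad_momentIdeal t ht ht0) (bad_degree t)⟩, ?_⟩
  · intro hc
    apply bad_ne_zero t ht ht0
    apply functional_eq_zero t ht ht0 _ (bad_momentIdeal t ht ht0) (bad_degree t)
    intro F hF
    have h1 : cycleOf t (bad t) F = 0 := by rw [hc]; rfl
    rw [cycleOf, dif_pos hF] at h1
    exact (mul_eq_zero.mp h1).resolve_left (bracket_ne_zero t ht ht0 F hF)
  · intro Φ hΦ
    rw [evaluation_unique t ht ht0 Φ hΦ]
    exact not_hardLefschetz_bad t ht ht0

end Build

end Pool.Agent.Results.MP_487945_co.CyclesEveryField
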