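import Mathlib

/-!
# Moment-curve linear systems of parameters: the Lefschetz property fails over every
# infinite field of positive characteristic (already for PL spheres)

For a finite simplicial complex `K` on the vertex set `V`, a field `k`, a function `t : V → k`
and `d : ℕ`, the ring `ArtinianReduction K t d` is the face ring `k[K]` modulo the linear forms
`θ_j = ∑ v, t_v ^ j * x_v` for `1 ≤ j ≤ d` (the moment-curve system `p_v = (t_v, ..., t_v ^ d)`).

The main theorem `result` says: for every infinite field `k` of positive characteristic there are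
a finite simplicial complex `K` which is a PL sphere of dimension `m = d - 1` and pairwise
distinct nonzero `t_v` such that the hard Lefschetz property fails.

The complex is the join of two boundaries of simplices with the same number `s` of vertices, so
it has `d + 2 = 2 s` vertices.
* In characteristic two, `s = 3`, `d = 4`, and the `t_v` are two orbits of the Moebius map
  `w ↦ 1 / (1 + w)`; here `l ^ 4 = 0` for every `l` of degree one.
* In odd characteristic `p`, `s = p ^ 2`, `d = 2 p ^ 2 - 2`, and the `t_v` form two translates of a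
  two-dimensional `𝔽_p`-subspace of `k`; here `l ^ (d - 2 p) * β ^ p = 0` for every `l` of degree
  one and a fixed `β` of degree one with `β ^ p ≠ 0`.
-/

set_option linter.unusedSectionVars false
set_option linter.unusedVariables false

open MvPolynomial

namespace Pool.Agent.Results.MP_487945_co.MomentCurvePosChar


universe u v

section Defs

/-- The geometric realization of a finite simplicial complex, as a subset of `V → ℝ`:
all points with nonnegative coordinates summing up to one whose support is a face. -/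
def realization {V : Type v} [Fintype V] [DecidableEq V] (K : AbstractSimplicialComplex V) :
    Set (V → ℝ) :=
  {x | (∀ v, 0 ≤ x v) ∧ ∑ v, x v = 1 ∧ (Finset.univ.filter fun v => x v ≠ 0) ∈ K.faces}

/-- A compact polyhedron: a finite union of convex hulls of finite sets. -/
def IsCompactPolyhedron {E : Type*} [AddCommGroup E] [Module ℝ E] (S : Set E) : Prop :=
  ∃ C : Finset (Finset E), S = ⋃ s ∈ C, convexHull ℝ (s : Set E)

/-- The boundary complex of the `(n+1)`-simplex with vertex set `Fin (n + 2)`: all nonempty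
proper subsets of the vertex set. -/
def boundarySimplex (n : ℕ) : AbstractSimplicialComplex (Fin (n + 2)) where
  faces := {F | F.Nonempty ∧ F ≠ Finset.univ}
  isRelLowerSet_faces := by
    rintro F ⟨hF, hne⟩
    refine ⟨hF, fun G hG hGne => ⟨hGne, ?_⟩⟩
    rintro rfl
    exact hne (Finset.univ_subset_iff.mp hG)
  singleton_mem := by
    intro v
    refine ⟨Finset.singleton_nonempty v, ?_⟩
    intro h
    have := congrArg Finset.card h
    simp at this

/-- `K` is a PL sphere of dimension `m`: there is a homeomorphism from the realization of `K`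
onto the realization of the boundary of the `(m+1)`-simplex which is piecewise linear, that is,
whose graph is a compact polyhedron. -/
def IsPLSphere {V : Type v} [Fintype V] [DecidableEq V] (m : ℕ)
    (K : AbstractSimplicialComplex V) : Prop :=
  ∃ f : realization K ≃ₜ realization (boundarySimplex m),
    IsCompactPolyhedron
      (Set.range fun x : realization K => ((x : V → ℝ), (f x : Fin (m + 2) → ℝ)))

end Defs

section Join

variable (ι : Type) [Fintype ι] [DecidableEq ι] [Nontrivial ι]

/-- join of two copies of the boundary of the simplex with vertex set `ι`. -/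
def joinBoundary : AbstractSimplicialComplex (ι ⊕ ι) where
  faces := {F | F.Nonempty ∧ (∃ i, Sum.inl i ∉ F) ∧ (∃ i, Sum.inr i ∉ F)}
  isRelLowerSet_faces := by
    rintro F ⟨hF, ⟨i, hi⟩, ⟨j, hj⟩⟩
    exact ⟨hF, fun G hG hGne => ⟨hGne, ⟨i, fun h => hi (hG h)⟩, ⟨j, fun h => hj (hG h)⟩⟩⟩
  singleton_mem := by
    rintro (v | v)
    · obtain ⟨w, hw⟩ := exists_ne v
      refine ⟨Finset.singleton_nonempty _, ⟨w, ?_⟩, ⟨v, ?_⟩⟩
      · simpa using hw
      · simp
    · obtain ⟨w, hw⟩ := exists_ne v
      refine ⟨Finset.singleton_nonempty _, ⟨v, ?_⟩, ⟨w, ?_⟩⟩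
      · simp
      · simpa using hw

theorem mem_realization_iff_biUnion {V : Type v} [Fintype V] [DecidableEq V]
    (K : AbstractSimplicialComplex V) (x : V → ℝ) :
    x ∈ realization K ↔ ∃ F ∈ K.faces, x ∈ convexHull ℝ
      ((fun v : V => (Pi.single v (1 : ℝ) : V → ℝ)) '' (F : Set V)) := by
  constructor
  · rintro ⟨h0, h1, h2⟩
    refine ⟨_, h2, ?_⟩
    have hx : x = ∑ v ∈ Finset.univ.filter (fun v => x v ≠ 0), x v • (Pi.single v (1:ℝ) : V → ℝ) := by
      rw [Finset.sum_filter_of_ne]
      · ext w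
        simp [Finset.sum_apply, Pi.single_apply]
      · intro v _ hv h
        apply hv
        rw [h, zero_smul]
    have hmem : ∑ v ∈ Finset.univ.filter (fun v => x v ≠ 0), x v • (Pi.single v (1:ℝ) : V → ℝ) ∈
        convexHull ℝ ((fun v : V => (Pi.single v (1 : ℝ) : V → ℝ)) ''
          ((Finset.univ.filter (fun v => x v ≠ 0) : Finset V) : Set V)) := by
      apply (convex_convexHull ℝ _).sum_mem
      · intro v _; exact h0 v
      · rw [Finset.sum_filter_ne_zero]; exact h1
      · intro v hv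
        exact subset_convexHull ℝ _ ⟨v, hv, rfl⟩
    rw [← hx] at hmem
    exact hmem
  · rintro ⟨F, hF, hx⟩
    have hconv : Convex ℝ {y : V → ℝ | (∀ v, 0 ≤ y v) ∧ ∑ v, y v = 1 ∧ ∀ v, v ∉ F → y v = 0} := by
      intro y hy z hz a b ha hb hab
      refine ⟨fun v => ?_, ?_, fun v hv => ?_⟩
      · have := hy.1 v; have := hz.1 v
        simp only [Pi.add_apply, Pi.smul_apply, smul_eq_mul]; positivity
      · simp only [Pi.add_apply, Pi.smul_apply, smul_eq_mul, Finset.sum_add_distrib,
          ← Finset.mul_sum, hy.2.1, hz.2.1]; linarith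
      · simp [hy.2.2 v hv, hz.2.2 v hv]
    have hsub : ((fun v : V => (Pi.single v (1 : ℝ) : V → ℝ)) '' (F : Set V)) ⊆
        {y : V → ℝ | (∀ v, 0 ≤ y v) ∧ ∑ v, y v = 1 ∧ ∀ v, v ∉ F → y v = 0} := by
      rintro _ ⟨v, hv, rfl⟩
      refine ⟨fun w => ?_, ?_, fun w hw => ?_⟩
      · by_cases h : w = v
        · subst h; simp
        · simp [h]
      · simp
      · have : w ≠ v := by rintro rfl; exact hw hv
        simp [this]
    have := convexHull_min hsub hconv hx
    obtain ⟨h0, h1, h2⟩ := this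
    refine ⟨h0, h1, ?_⟩
    refine (K.isRelLowerSet_faces hF).2 ?_ ?_
    · intro v hv
      by_contra hvF
      exact (Finset.mem_filter.mp hv).2 (h2 v hvF)
    · by_contra hemp
      rw [Finset.not_nonempty_iff_eq_empty, Finset.filter_eq_empty_iff] at hemp
      have : ∑ v, x v = 0 := Finset.sum_eq_zero fun v hv => by
        have := hemp hv; simpa using this
      rw [this] at h1
      exact zero_ne_one h1

/-- the graph of a linear map on a realization is a compact polyhedron -/
theorem isCompactPolyhedron_graph {V : Type v} [Fintype V] [DecidableEq V]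
    (K : AbstractSimplicialComplex V) {E : Type*} [AddCommGroup E] [Module ℝ E]
    (L : (V → ℝ) →ₗ[ℝ] E) :
    IsCompactPolyhedron (Set.range fun x : realization K => ((x : V → ℝ), L (x : V → ℝ))) := by
  classical
  refine ⟨(Finset.univ.filter fun F : Finset V => F ∈ K.faces).image
    (fun F => F.image fun v => ((Pi.single v (1 : ℝ) : V → ℝ), L (Pi.single v (1 : ℝ)))), ?_⟩
  ext p
  have key : ∀ F : Finset V,
      convexHull ℝ (((F.image fun v => ((Pi.single v (1 : ℝ) : V → ℝ),
        L (Pi.single v (1 : ℝ)))) : Finset ((V → ℝ) × E)) : Set ((V → ℝ) × E)) =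
      (LinearMap.prod LinearMap.id L) '' convexHull ℝ
        ((fun v : V => (Pi.single v (1 : ℝ) : V → ℝ)) '' (F : Set V)) := by
    intro F
    rw [LinearMap.image_convexHull, Finset.coe_image, ← Set.image_comp]
    rfl
  simp only [Set.mem_range, Finset.mem_image, Finset.mem_filter, Finset.mem_univ, true_and,
    Set.mem_iUnion, exists_prop]
  constructor
  · rintro ⟨⟨x, hx⟩, rfl⟩
    obtain ⟨F, hF, hxF⟩ := (mem_realization_iff_biUnion K x).mp hx
    refine ⟨_, ⟨F, hF, rfl⟩, ?_⟩
    rw [key]
    exact ⟨x, hxF, rfl⟩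
  · rintro ⟨_, ⟨F, hF, rfl⟩, hp⟩
    rw [key] at hp
    obtain ⟨x, hx, rfl⟩ := hp
    exact ⟨⟨x, (mem_realization_iff_biUnion K x).mpr ⟨F, hF, hx⟩⟩, rfl⟩

variable {ι}

/-- the collapsing linear map. -/
noncomputable def collapse (i₀ : ι) {m : ℕ} (e : ι ⊕ {i : ι // i ≠ i₀} ≃ Fin (m + 2)) :
    (ι ⊕ ι → ℝ) →ₗ[ℝ] (Fin (m + 2) → ℝ) where
  toFun x j := Sum.elim (fun i => x (Sum.inl i) + x (Sum.inr i₀) / Fintype.card ι)
    (fun i : {i : ι // i ≠ i₀} => x (Sum.inr i.1)) (e.symm j)
  map_add' x y := by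
    ext j
    rcases h : e.symm j with i | i
    · simp [h]; ring
    · simp [h]
  map_smul' c x := by
    ext j
    rcases h : e.symm j with i | i
    · simp [h]; ring
    · simp [h]

/-- the inverse -/
noncomputable def expand (i₀ : ι) {m : ℕ} (e : ι ⊕ {i : ι // i ≠ i₀} ≃ Fin (m + 2))
    (y : Fin (m + 2) → ℝ) : ι ⊕ ι → ℝ :=
  Sum.elim
    (fun i => y (e (Sum.inl i)) -
      Finset.univ.inf' ⟨i₀, Finset.mem_univ i₀⟩ (fun i' => y (e (Sum.inl i'))))
    (fun i => if h : i = i₀ then
        Fintype.card ι * Finset.univ.inf' ⟨i₀, Finset.mem_univ i₀⟩ (fun i' => y (e (Sum.inl i')))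
      else y (e (Sum.inr ⟨i, h⟩)))


theorem isPLSphere_joinBoundary (m : ℕ) (hm : m + 3 = 2 * Fintype.card ι) :
    IsPLSphere m (joinBoundary ι) := by
  classical
  obtain ⟨i₀, -⟩ := exists_pair_ne ι
  have hs0 : 0 < Fintype.card ι := Fintype.card_pos_iff.mpr ⟨i₀⟩
  have hsR : (Fintype.card ι : ℝ) ≠ 0 := by exact_mod_cast hs0.ne'
  have hcard : Fintype.card (ι ⊕ {i : ι // i ≠ i₀}) = Fintype.card (Fin (m + 2)) := by
    rw [Fintype.card_sum, Fintype.card_fin]
    have : Fintype.card {i : ι // i ≠ i₀} = Fintype.card ι - 1 := by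
      simp [Fintype.card_subtype_compl]
    rw [this]
    omega
  obtain ⟨e⟩ := Fintype.card_eq.mp hcard
  have hne : (Finset.univ : Finset ι).Nonempty := ⟨i₀, Finset.mem_univ i₀⟩
  -- the two maps
  have hto : ∀ x : realization (joinBoundary ι),
      collapse i₀ e (x : ι ⊕ ι → ℝ) ∈ realization (boundarySimplex m) := by
    rintro ⟨x, h0, h1, h2⟩
    have hnn : ∀ j, 0 ≤ collapse i₀ e x j := by
      intro j
      rcases h : e.symm j with i | i
      · simp only [collapse, LinearMap.coe_mk, AddHom.coe_mk, h, Sum.elim_inl]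
        have := h0 (Sum.inl i); have := h0 (Sum.inr i₀); positivity
      · simp only [collapse, LinearMap.coe_mk, AddHom.coe_mk, h, Sum.elim_inr]
        exact h0 _
    have hsum : ∑ j, collapse i₀ e x j = 1 := by
      have : ∑ j, collapse i₀ e x j = ∑ a : ι ⊕ {i : ι // i ≠ i₀},
          Sum.elim (fun i => x (Sum.inl i) + x (Sum.inr i₀) / Fintype.card ι)
            (fun i : {i : ι // i ≠ i₀} => x (Sum.inr i.1)) a := by
        rw [← e.symm.sum_comp]
        rfl
      rw [this, Fintype.sum_sum_type]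
      simp only [Sum.elim_inl, Sum.elim_inr, Finset.sum_add_distrib, Finset.sum_const,
        Finset.card_univ, nsmul_eq_mul]
      rw [mul_div_cancel₀ _ hsR, ← h1, Fintype.sum_sum_type]
      have : ∑ i, x (Sum.inr i) = x (Sum.inr i₀) + ∑ i : {i : ι // i ≠ i₀}, x (Sum.inr i.1) := by
        rw [← Finset.add_sum_erase _ _ (Finset.mem_univ i₀)]
        congr 1
        exact (Finset.sum_subtype _ (by simp) _)
      rw [this]; ring
    refine ⟨hnn, hsum, ?_, ?_⟩
    · by_contra hemp
      rw [Finset.not_nonempty_iff_eq_empty, Finset.filter_eq_empty_iff] at hemp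
      have : ∑ j, collapse i₀ e x j = 0 := Finset.sum_eq_zero fun v hv => by
        have := hemp hv; simpa using this
      rw [this] at hsum
      exact zero_ne_one hsum
    · obtain ⟨-, ⟨i, hi⟩, ⟨i', hi'⟩⟩ := h2
      have hi : x (Sum.inl i) = 0 := by simpa using hi
      have hi' : x (Sum.inr i') = 0 := by simpa using hi'
      intro hall
      by_cases hw : x (Sum.inr i₀) = 0
      · have : e (Sum.inl i) ∈ Finset.univ.filter (fun j => collapse i₀ e x j ≠ 0) := by
          rw [hall]; exact Finset.mem_univ _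
        apply (Finset.mem_filter.mp this).2
        simp [collapse, hi, hw]
      · have hne' : i' ≠ i₀ := by rintro rfl; exact hw hi'
        have : e (Sum.inr ⟨i', hne'⟩) ∈ Finset.univ.filter (fun j => collapse i₀ e x j ≠ 0) := by
          rw [hall]; exact Finset.mem_univ _
        apply (Finset.mem_filter.mp this).2
        simp [collapse, hi']
  have hfrom : ∀ y : realization (boundarySimplex m),
      expand i₀ e (y : Fin (m + 2) → ℝ) ∈ realization (joinBoundary ι) := by
    rintro ⟨y, h0, h1, h2⟩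
    set mn := Finset.univ.inf' ⟨i₀, Finset.mem_univ i₀⟩ (fun i' => y (e (Sum.inl i'))) with hmn
    have hmn0 : 0 ≤ mn := by
      rw [hmn]; exact (Finset.le_inf'_iff _ _).mpr fun i _ => h0 _
    have hmnle : ∀ i, mn ≤ y (e (Sum.inl i)) := fun i => Finset.inf'_le _ (Finset.mem_univ i)
    have hl : ∀ i, expand i₀ e y (Sum.inl i) = y (e (Sum.inl i)) - mn := fun i => rfl
    have hr0 : expand i₀ e y (Sum.inr i₀) = Fintype.card ι * mn := by
      simp [expand, ← hmn]
    have hr : ∀ i (h : i ≠ i₀), expand i₀ e y (Sum.inr i) = y (e (Sum.inr ⟨i, h⟩)) := by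
      intro i h; simp [expand, h]
    have hnn : ∀ v, 0 ≤ expand i₀ e y v := by
      rintro (i | i)
      · rw [hl]; linarith [hmnle i]
      · by_cases h : i = i₀
        · subst h; rw [hr0]; positivity
        · rw [hr i h]; exact h0 _
    have hsum : ∑ v, expand i₀ e y v = 1 := by
      rw [Fintype.sum_sum_type, ← Finset.add_sum_erase Finset.univ
        (fun i => expand i₀ e y (Sum.inr i)) (Finset.mem_univ i₀), hr0]
      have hA : ∑ i ∈ Finset.univ.erase i₀, expand i₀ e y (Sum.inr i) =
          ∑ i : {i : ι // i ≠ i₀}, y (e (Sum.inr i)) := by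
        rw [Finset.sum_subtype (p := fun i => i ≠ i₀) _ (by simp)]
        exact Finset.sum_congr rfl fun i _ => hr i.1 i.2
      rw [hA]
      simp only [hl, Finset.sum_sub_distrib, Finset.sum_const, Finset.card_univ, nsmul_eq_mul]
      rw [← h1, ← e.sum_comp, Fintype.sum_sum_type]
      ring
    refine ⟨hnn, hsum, ?_, ?_, ?_⟩
    · by_contra hemp
      rw [Finset.not_nonempty_iff_eq_empty, Finset.filter_eq_empty_iff] at hemp
      have : ∑ j, expand i₀ e y j = 0 := Finset.sum_eq_zero fun v hv => by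
        have := hemp hv; simpa using this
      rw [this] at hsum
      exact zero_ne_one hsum
    · obtain ⟨i, -, hi⟩ := Finset.exists_mem_eq_inf' hne (fun i' => y (e (Sum.inl i')))
      refine ⟨i, ?_⟩
      simp only [Finset.mem_filter, Finset.mem_univ, true_and, not_not]
      rw [hl, hmn, hi]; ring
    · obtain ⟨j, hj⟩ : ∃ j, y j = 0 := by
        by_contra hcon
        push Not at hcon
        apply h2.2
        ext j; simp [hcon j]
      rcases h : e.symm j with i | i
      · refine ⟨i₀, ?_⟩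
        simp only [Finset.mem_filter, Finset.mem_univ, true_and, not_not]
        have : j = e (Sum.inl i) := by rw [← h]; simp
        have hle := hmnle i
        rw [← this, hj] at hle
        rw [hr0, le_antisymm hle hmn0, mul_zero]
      · refine ⟨i.1, ?_⟩
        simp only [Finset.mem_filter, Finset.mem_univ, true_and, not_not]
        have : j = e (Sum.inr i) := by rw [← h]; simp
        rw [hr i.1 i.2, ← this, hj]
  have hLcont : Continuous (collapse i₀ e : (ι ⊕ ι → ℝ) → (Fin (m + 2) → ℝ)) :=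
    LinearMap.continuous_of_finiteDimensional _
  have hEcont : Continuous (expand i₀ e : (Fin (m + 2) → ℝ) → (ι ⊕ ι → ℝ)) := by
    have hmin : Continuous fun y : Fin (m + 2) → ℝ =>
        Finset.univ.inf' ⟨i₀, Finset.mem_univ i₀⟩ (fun i' => y (e (Sum.inl i'))) := by
      apply Continuous.finset_inf'_apply
      intro i _
      exact continuous_apply _
    apply continuous_pi
    rintro (i | i)
    · exact (continuous_apply _).sub hmin
    · by_cases h : i = i₀
      · subst h
        simp only [expand, Sum.elim_inr, dif_pos]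
        exact continuous_const.mul hmin
      · simp only [expand, Sum.elim_inr, dif_neg h]
        exact continuous_apply _
  refine ⟨⟨⟨fun x => ⟨_, hto x⟩, fun y => ⟨_, hfrom y⟩, ?_, ?_⟩, ?_, ?_⟩, ?_⟩
  · rintro ⟨x, h0, h1, ⟨-, ⟨i, hi⟩, ⟨i', hi'⟩⟩⟩
    have hi : x (Sum.inl i) = 0 := by simpa using hi
    have hmin : Finset.univ.inf' ⟨i₀, Finset.mem_univ i₀⟩
        (fun i' => collapse i₀ e x (e (Sum.inl i'))) = x (Sum.inr i₀) / Fintype.card ι := by
      apply le_antisymm
      · have := Finset.inf'_le (fun i' => collapse i₀ e x (e (Sum.inl i'))) (Finset.mem_univ i)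
        simpa [collapse, hi] using this
      · refine (Finset.le_inf'_iff _ _).mpr ?_
        intro b _
        simp only [collapse, LinearMap.coe_mk, AddHom.coe_mk, Equiv.symm_apply_apply, Sum.elim_inl]
        linarith [h0 (Sum.inl b)]
    apply Subtype.ext
    ext v
    rcases v with i | i
    · change collapse i₀ e x (e (Sum.inl i)) - Finset.univ.inf' _ _ = _
      rw [hmin]; simp [collapse]
    · change (if h : i = i₀ then _ else _ : ℝ) = _
      split_ifs with h
      · subst h; rw [hmin]; field_simp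
      · simp [collapse]
  · rintro ⟨y, h0, h1, h2⟩
    apply Subtype.ext
    ext j
    change Sum.elim (fun i => expand i₀ e y (Sum.inl i) + expand i₀ e y (Sum.inr i₀) / Fintype.card ι)
      (fun i : {i : ι // i ≠ i₀} => expand i₀ e y (Sum.inr i.1)) (e.symm j) = y j
    rcases h : e.symm j with i | i
    · have : j = e (Sum.inl i) := by rw [← h]; simp
      rw [this]
      simp only [expand, Sum.elim_inl, Sum.elim_inr, dif_pos]
      field_simp
      ring
    · have : j = e (Sum.inr i) := by rw [← h]; simp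
      rw [this]
      simp [expand, i.2]
  · exact Continuous.subtype_mk (hLcont.comp continuous_subtype_val) _
  · exact Continuous.subtype_mk (hEcont.comp continuous_subtype_val) _
  · exact isCompactPolyhedron_graph (joinBoundary ι) (collapse i₀ e)

end Join





section Defs

variable {k : Type u} [Field k] {V : Type v} [Fintype V] [DecidableEq V]

variable (k) in
/-- The face ideal `I_K`, generated by the squarefree monomials of the nonfaces. -/
noncomputable def faceIdeal (K : AbstractSimplicialComplex V) : Ideal (MvPolynomial V k) :=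
  Ideal.span {m | ∃ S : Finset V, S.Nonempty ∧ S ∉ K.faces ∧ m = ∏ v ∈ S, X v}

/-- The linear form `θ_j = ∑ v, t_v ^ j * x_v`. -/
noncomputable def momentForm (t : V → k) (j : ℕ) : MvPolynomial V k := ∑ v, C (t v ^ j) * X v

/-- The ideal generated by `θ_1, ..., θ_d`. -/
noncomputable def momentIdeal (t : V → k) (d : ℕ) : Ideal (MvPolynomial V k) :=
  Ideal.span {θ | ∃ j : ℕ, 1 ≤ j ∧ j ≤ d ∧ θ = momentForm t j}

/-- The Artinian reduction `k[K] / (θ_1, ..., θ_d)` of the face ring. -/
abbrev ArtinianReduction (K : AbstractSimplicialComplex V) (t : V → k) (d : ℕ) : Type _ :=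
  MvPolynomial V k ⧸ (faceIdeal k K ⊔ momentIdeal t d)

/-- The degree `i` piece of the Artinian reduction: the image of the homogeneous polynomials of
degree `i`. -/
noncomputable def gradedPiece (K : AbstractSimplicialComplex V) (t : V → k) (d : ℕ) (i : ℕ) :
    Submodule k (ArtinianReduction K t d) :=
  (homogeneousSubmodule V k i).map
    (Ideal.Quotient.mkₐ k (faceIdeal k K ⊔ momentIdeal t d)).toLinearMap

/-- The (hard) Lefschetz property of the Artinian reduction in socle degree `d`: for some `l` of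
degree one, multiplication by `l ^ (d - 2 i)` is a bijection from degree `i` onto degree `d - i`
for all `i` with `2 i ≤ d`. -/
def HardLefschetz (K : AbstractSimplicialComplex V) (t : V → k) (d : ℕ) : Prop :=
  ∃ l ∈ gradedPiece K t d 1, ∀ i : ℕ, 2 * i ≤ d →
    Set.BijOn (fun a => l ^ (d - 2 * i) * a) (gradedPiece K t d i) (gradedPiece K t d (d - i))

end Defs

section Algebra

variable {k : Type u} [Field k] {V : Type v} [Fintype V] [DecidableEq V]
variable (K : AbstractSimplicialComplex V) (t : V → k) (d : ℕ)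

/-- class of the variable -/
noncomputable def xi (v : V) : ArtinianReduction K t d := Ideal.Quotient.mk _ (X v)

theorem sum_pow_xi {j : ℕ} (h1 : 1 ≤ j) (h2 : j ≤ d) : ∑ v, (t v ^ j) • xi K t d v = 0 := by
  have : ∑ v, (t v ^ j) • xi K t d v =
      Ideal.Quotient.mk (faceIdeal k K ⊔ momentIdeal t d) (momentForm t j) := by
    simp only [momentForm, map_sum, map_mul, xi, Algebra.smul_def]
    rfl
  rw [this, Ideal.Quotient.eq_zero_iff_mem]
  exact Ideal.mem_sup_right (Ideal.subset_span ⟨j, h1, h2, rfl⟩)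

theorem sum_eval_xi (g : Polynomial k) (hg : g.natDegree < d) :
    ∑ v, (g.eval (t v) * t v) • xi K t d v = 0 := by
  have h : ∀ v, g.eval (t v) * t v = ∑ j ∈ Finset.range d, g.coeff j * t v ^ (j + 1) := by
    intro v
    rw [Polynomial.eval_eq_sum_range' hg, Finset.sum_mul]
    exact Finset.sum_congr rfl fun j _ => by ring
  simp_rw [h, Finset.sum_smul]
  rw [Finset.sum_comm]
  apply Finset.sum_eq_zero
  intro j hj
  simp_rw [mul_smul]
  rw [← Finset.smul_sum, sum_pow_xi K t d (by omega) (by simpa using hj), smul_zero]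

/-- the products `D_v`. -/
def dd (v : V) : k := ∏ u ∈ Finset.univ.erase v, (t v - t u)

variable {t} in
theorem dd_ne_zero (ht : Function.Injective t) (v : V) : dd t v ≠ 0 := by
  rw [dd, Finset.prod_ne_zero_iff]
  intro u hu
  rw [sub_ne_zero]
  intro h
  exact (Finset.ne_of_mem_erase hu) (ht h).symm

/-- rescaled variable -/
noncomputable def yy (v : V) : ArtinianReduction K t d := (dd t v * t v) • xi K t d v

theorem three_term (hd : Fintype.card V = d + 2) {a b c : V}
    (hab : a ≠ b) (hac : a ≠ c) (hbc : b ≠ c) :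
    (t b - t c) • yy K t d a + (t c - t a) • yy K t d b + (t a - t b) • yy K t d c = 0 := by
  classical
  set S : Finset V := {a, b, c} with hS
  have hScard : S.card = 3 := by
    rw [hS, Finset.card_insert_of_notMem, Finset.card_pair hbc]
    simp [hab, hac]
  set g : Polynomial k := ∏ u ∈ Finset.univ \ S, (Polynomial.X - Polynomial.C (t u)) with hgdef
  have hgdeg : g.natDegree < d := by
    rw [hgdef, Polynomial.natDegree_finsetProd_X_sub_C_eq_card]
    have : (Finset.univ \ S).card = Fintype.card V - 3 := by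
      rw [Finset.card_sdiff_of_subset (Finset.subset_univ _), hScard, Finset.card_univ]
    rw [this]
    have : 3 ≤ Fintype.card V := by
      rw [← hScard, ← Finset.card_univ]; exact Finset.card_le_card (Finset.subset_univ _)
    omega
  have hsum := sum_eval_xi K t d g hgdeg
  have hz : ∀ v, v ∉ S → g.eval (t v) = 0 := by
    intro v hv
    rw [hgdef, Polynomial.eval_prod]
    exact Finset.prod_eq_zero (i := v) (by simp [hv]) (by simp)
  rw [← Finset.sum_subset (Finset.subset_univ S)
    (fun v _ hv => by rw [hz v hv, zero_mul, zero_smul])] at hsum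
  rw [hS, Finset.sum_insert (by simp [hab, hac]), Finset.sum_pair hbc] at hsum
  have hD : ∀ v ∈ S, dd t v = g.eval (t v) * ∏ u ∈ S.erase v, (t v - t u) := by
    intro v hv
    rw [dd, hgdef, Polynomial.eval_prod]
    simp only [Polynomial.eval_sub, Polynomial.eval_X, Polynomial.eval_C]
    rw [← Finset.prod_union]
    · congr 1
      ext u
      simp only [Finset.mem_erase, Finset.mem_univ, and_true, Finset.mem_union,
        Finset.mem_sdiff, true_and]
      constructor
      · intro hu
        by_cases h : u ∈ S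
        · exact Or.inr ⟨hu, h⟩
        · exact Or.inl h
      · rintro (h | h)
        · rintro rfl; exact h hv
        · exact h.1
    · rw [Finset.disjoint_left]
      intro u hu hu'
      exact (Finset.mem_sdiff.mp hu).2 (Finset.mem_of_mem_erase hu')
  have ha : dd t a = g.eval (t a) * ((t a - t b) * (t a - t c)) := by
    rw [hD a (by simp [hS])]
    congr 1
    have : S.erase a = {b, c} := by
      rw [hS, Finset.erase_insert]; simp [hab, hac]
    rw [this, Finset.prod_pair hbc]
  have hb : dd t b = g.eval (t b) * ((t b - t a) * (t b - t c)) := by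
    rw [hD b (by simp [hS])]
    congr 1
    have : S.erase b = {a, c} := by
      ext u; simp only [hS, Finset.mem_erase, Finset.mem_insert, Finset.mem_singleton]
      constructor
      · rintro ⟨h1, h2 | h2 | h2⟩
        · exact Or.inl h2
        · exact absurd h2 h1
        · exact Or.inr h2
      · rintro (h | h)
        · subst h; exact ⟨hab, Or.inl rfl⟩
        · subst h; exact ⟨hbc.symm, Or.inr (Or.inr rfl)⟩
    rw [this, Finset.prod_pair hac]
  have hc : dd t c = g.eval (t c) * ((t c - t a) * (t c - t b)) := by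
    rw [hD c (by simp [hS])]
    congr 1
    have : S.erase c = {a, b} := by
      ext u; simp only [hS, Finset.mem_erase, Finset.mem_insert, Finset.mem_singleton]
      constructor
      · rintro ⟨h1, h2 | h2 | h2⟩
        · exact Or.inl h2
        · exact Or.inr h2
        · exact absurd h2 h1
      · rintro (h | h)
        · subst h; exact ⟨hac, Or.inl rfl⟩
        · subst h; exact ⟨hbc, Or.inr (Or.inl rfl)⟩
    rw [this, Finset.prod_pair hab]
  have key := congrArg (fun z => ((t a - t b) * (t b - t c) * (t a - t c)) • z) hsum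
  simp only [smul_zero, smul_add, smul_smul] at key
  rw [← key]
  simp only [yy, smul_smul]
  rw [show (t b - t c) * (dd t a * t a) =
      (t a - t b) * (t b - t c) * (t a - t c) * (Polynomial.eval (t a) g * t a) by rw [ha]; ring,
    show (t c - t a) * (dd t b * t b) =
      (t a - t b) * (t b - t c) * (t a - t c) * (Polynomial.eval (t b) g * t b) by rw [hb]; ring,
    show (t a - t b) * (dd t c * t c) =
      (t a - t b) * (t b - t c) * (t a - t c) * (Polynomial.eval (t c) g * t c) by rw [hc]; ring,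
    ← add_assoc]

theorem exists_line (hd : Fintype.card V = d + 2) (ht : Function.Injective t) :
    ∃ α ∈ gradedPiece K t d 1, ∃ β ∈ gradedPiece K t d 1, ∀ v, yy K t d v = α + t v • β := by
  classical
  have hmem : ∀ v, yy K t d v ∈ gradedPiece K t d 1 := by
    intro v
    apply Submodule.smul_mem
    exact ⟨X v, isHomogeneous_X k v, rfl⟩
  have : 1 < Fintype.card V := by omega
  obtain ⟨a, b, hab⟩ := Fintype.exists_pair_of_one_lt_card this
  have htab : t a - t b ≠ 0 := sub_ne_zero.mpr fun h => hab (ht h)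
  set β := (t a - t b)⁻¹ • (yy K t d a - yy K t d b) with hβ
  have hβmem : β ∈ gradedPiece K t d 1 :=
    Submodule.smul_mem _ _ (Submodule.sub_mem _ (hmem a) (hmem b))
  refine ⟨yy K t d a - t a • β, Submodule.sub_mem _ (hmem a) (Submodule.smul_mem _ _ hβmem),
    β, hβmem, ?_⟩
  have hβ' : (t a - t b) • β = yy K t d a - yy K t d b := by
    rw [hβ, smul_smul, mul_inv_cancel₀ htab, one_smul]
  intro c
  by_cases hca : c = a
  · subst hca; abel
  by_cases hcb : c = b
  · subst hcb
    have : yy K t d c = yy K t d a - (t a - t c) • β := by rw [hβ']; abel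
    rw [this, sub_smul]; abel
  have h3 := three_term K t d hd hab (Ne.symm hca) (Ne.symm hcb)
  have h4 : (t a - t b) • yy K t d c = (t a - t b) • (yy K t d a - t a • β + t c • β) := by
    have e1 : (t a - t b) • (yy K t d a - t a • β + t c • β) =
        (t a - t b) • yy K t d a - t a • ((t a - t b) • β) + t c • ((t a - t b) • β) := by
      simp only [smul_add, smul_sub, smul_comm (t a - t b)]
    rw [e1, hβ']
    have e2 : (t a - t b) • yy K t d c =
        - ((t b - t c) • yy K t d a + (t c - t a) • yy K t d b) := by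
      rw [eq_neg_iff_add_eq_zero, add_comm]; exact h3
    rw [e2]
    simp only [sub_smul, smul_sub]
    abel
  exact smul_right_injective _ htab h4

theorem mem_span_line (ht : Function.Injective t) (ht0 : ∀ v, t v ≠ 0)
    {α β : ArtinianReduction K t d} (h : ∀ v, yy K t d v = α + t v • β)
    {l : ArtinianReduction K t d} (hl : l ∈ gradedPiece K t d 1) :
    ∃ a b : k, l = a • α + b • β := by
  obtain ⟨p, hp, rfl⟩ := hl
  have hp' : p ∈ homogeneousSubmodule V k 1 := hp
  rw [homogeneousSubmodule_one_eq_span_X] at hp'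
  have main : ∀ q ∈ Submodule.span k (Set.range (X : V → MvPolynomial V k)), ∃ a b : k,
      (Ideal.Quotient.mkₐ k (faceIdeal k K ⊔ momentIdeal t d)).toLinearMap q = a • α + b • β := by
    intro q hq
    induction hq using Submodule.span_induction with
    | mem x hx =>
      obtain ⟨v, rfl⟩ := hx
      have hv := h v
      have hne : dd t v * t v ≠ 0 := mul_ne_zero (dd_ne_zero ht v) (ht0 v)
      refine ⟨(dd t v * t v)⁻¹, (dd t v * t v)⁻¹ * t v, ?_⟩
      have : xi K t d v = (dd t v * t v)⁻¹ • (α + t v • β) := by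
        rw [← hv, yy, smul_smul, inv_mul_cancel₀ hne, one_smul]
      change xi K t d v = _
      rw [this, smul_add, smul_smul]
    | zero => exact ⟨0, 0, by simp⟩
    | add x y hx hy hx' hy' =>
      obtain ⟨a, b, hab⟩ := hx'
      obtain ⟨a', b', hab'⟩ := hy'
      refine ⟨a + a', b + b', ?_⟩
      rw [map_add, hab, hab']
      simp only [add_smul]; abel
    | smul c x hx hx' =>
      obtain ⟨a, b, hab⟩ := hx'
      refine ⟨c * a, c * b, ?_⟩
      rw [map_smul, hab]
      simp only [smul_add, mul_smul]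
  exact main p hp'

end Algebra



theorem prod_sub_field (p : ℕ) [Fact p.Prime] {F : Type*} [Field F] (φ : ZMod p →+* F) (z : F) :
    ∏ i : ZMod p, (z - φ i) = z ^ p - z := by
  have h1 : (Polynomial.X ^ p - Polynomial.X : Polynomial (ZMod p)) =
      ∏ i : ZMod p, (Polynomial.X - Polynomial.C i) := by
    have hroots := FiniteField.roots_X_pow_card_sub_X (ZMod p)
    rw [ZMod.card p] at hroots
    have hmonic : (Polynomial.X ^ p - Polynomial.X : Polynomial (ZMod p)).Monic := by
      apply Polynomial.monic_X_pow_sub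
      rw [Polynomial.degree_X]
      exact_mod_cast (Fact.out : p.Prime).one_lt
    have hcard : Multiset.card (Polynomial.X ^ p - Polynomial.X : Polynomial (ZMod p)).roots =
        (Polynomial.X ^ p - Polynomial.X : Polynomial (ZMod p)).natDegree := by
      rw [hroots, FiniteField.X_pow_card_sub_X_natDegree_eq _ (Fact.out : p.Prime).one_lt]
      rw [Finset.card_val, Finset.card_univ, ZMod.card]
    rw [← Polynomial.prod_multiset_X_sub_C_of_monic_of_roots_card_eq hmonic hcard, hroots]
    rfl
  have h2 := congrArg (Polynomial.eval₂ φ z) h1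
  rw [Polynomial.eval₂_finsetProd] at h2
  simpa using h2.symm

theorem prod_add_mul (p : ℕ) [Fact p.Prime] {A : Type*} [CommRing A] (φ : ZMod p →+* A)
    (x y : A) : ∏ i : ZMod p, (x + φ i * y) = x ^ p - x * y ^ (p - 1) := by
  have hp : 0 < p := (Fact.out : p.Prime).pos
  -- universal case
  have huniv : ∏ i : ZMod p, ((X 0 : MvPolynomial (Fin 2) (ZMod p)) + C i * X 1) =
      X 0 ^ p - X 0 * X 1 ^ (p - 1) := by
    let F := FractionRing (MvPolynomial (Fin 2) (ZMod p))
    have hinj : Function.Injective (algebraMap (MvPolynomial (Fin 2) (ZMod p)) F) :=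
      IsFractionRing.injective _ _
    apply hinj
    rw [map_prod]
    have hY : algebraMap (MvPolynomial (Fin 2) (ZMod p)) F (X 1) ≠ 0 := by
      rw [Ne, map_eq_zero_iff _ hinj]
      exact X_ne_zero _
    set ψ : ZMod p →+* F := (algebraMap (MvPolynomial (Fin 2) (ZMod p)) F).comp C with hψ
    set a := algebraMap (MvPolynomial (Fin 2) (ZMod p)) F (X 0)
    set b := algebraMap (MvPolynomial (Fin 2) (ZMod p)) F (X 1)
    have hf : ∀ i : ZMod p, algebraMap (MvPolynomial (Fin 2) (ZMod p)) F (X 0 + C i * X 1) =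
        b * (a / b - ψ (-i)) := by
      intro i
      rw [map_add, map_mul, map_neg, sub_neg_eq_add, mul_add, mul_div_cancel₀ _ hY]
      simp only [hψ, RingHom.comp_apply]
      ring
    rw [Finset.prod_congr rfl fun i _ => hf i, Finset.prod_mul_distrib, Finset.prod_const,
      Finset.card_univ, ZMod.card]
    have hre : ∏ i : ZMod p, (a / b - ψ (-i)) = ∏ i : ZMod p, (a / b - ψ i) :=
      Equiv.prod_comp (Equiv.neg (ZMod p)) fun i => a / b - ψ i
    rw [hre, prod_sub_field]
    rw [map_sub, map_mul, map_pow, map_pow]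
    change b ^ p * ((a / b) ^ p - a / b) = a ^ p - a * b ^ (p - 1)
    obtain ⟨q, rfl⟩ : ∃ q, p = q + 1 := ⟨p - 1, by omega⟩
    rw [Nat.add_sub_cancel, mul_sub, div_pow, mul_div_cancel₀ _ (pow_ne_zero _ hY), pow_succ b]
    have : b ^ q * b * (a / b) = a * b ^ q := by
      rw [mul_assoc, mul_div_cancel₀ _ hY, mul_comm]
    rw [this]
  have := congrArg (eval₂Hom φ ![x, y]) huniv
  rw [map_prod] at this
  simpa using this

section Cases

variable {k : Type u} [Field k] {V : Type v} [Fintype V] [DecidableEq V]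
variable (K : AbstractSimplicialComplex V) (t : V → k) (d : ℕ)

theorem prod_line_eq_zero {S : Finset V} (hS : S.Nonempty) (hSK : S ∉ K.faces)
    {α β : ArtinianReduction K t d} (h : ∀ v, yy K t d v = α + t v • β) :
    ∏ v ∈ S, (α + t v • β) = 0 := by
  have h1 : ∏ v ∈ S, (α + t v • β) =
      (∏ v ∈ S, algebraMap k (ArtinianReduction K t d) (dd t v * t v)) *
        ∏ v ∈ S, xi K t d v := by
    rw [← Finset.prod_mul_distrib]
    refine Finset.prod_congr rfl fun v _ => ?_
    rw [← h v, yy, Algebra.smul_def]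
  have h2 : ∏ v ∈ S, xi K t d v = 0 := by
    simp only [xi]
    rw [← map_prod, Ideal.Quotient.eq_zero_iff_mem]
    exact Ideal.mem_sup_left (Ideal.subset_span ⟨S, hS, hSK, rfl⟩)
  rw [h1, h2, mul_zero]

theorem one_ne_zero_quot : (1 : ArtinianReduction K t d) ≠ 0 := by
  intro h
  have h1 : (1 : MvPolynomial V k) ∈ faceIdeal k K ⊔ momentIdeal t d := by
    rw [← Ideal.Quotient.eq_zero_iff_mem]; exact h
  have hle : faceIdeal k K ⊔ momentIdeal t d ≤ RingHom.ker (constantCoeff (R := k) (σ := V)) := by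
    apply sup_le
    · rw [faceIdeal, Ideal.span_le]
      rintro _ ⟨S, hS, -, rfl⟩
      obtain ⟨v, hv⟩ := hS
      rw [SetLike.mem_coe, RingHom.mem_ker, map_prod]
      exact Finset.prod_eq_zero hv (by simp)
    · rw [momentIdeal, Ideal.span_le]
      rintro _ ⟨j, -, -, rfl⟩
      rw [SetLike.mem_coe, RingHom.mem_ker, momentForm, map_sum]
      exact Finset.sum_eq_zero fun v _ => by simp
  have h2 := hle h1
  rw [RingHom.mem_ker, map_one] at h2
  exact one_ne_zero h2

theorem pow_mem_gradedPiece {β : ArtinianReduction K t d} (hβ : β ∈ gradedPiece K t d 1)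
    (n : ℕ) : β ^ n ∈ gradedPiece K t d n := by
  obtain ⟨q, hq, rfl⟩ := hβ
  refine ⟨q ^ n, ?_, ?_⟩
  · have := (show q.IsHomogeneous 1 from hq).pow n
    simpa using this
  · simp

theorem not_hardLefschetz_of_kills (i : ℕ) (hi : 2 * i ≤ d) (b : ArtinianReduction K t d)
    (hb : b ∈ gradedPiece K t d i) (hb0 : b ≠ 0)
    (H : ∀ l ∈ gradedPiece K t d 1, l ^ (d - 2 * i) * b = 0) : ¬ HardLefschetz K t d := by
  rintro ⟨l, hl, hL⟩
  have h1 := (hL i hi).injOn hb (Submodule.zero_mem _)
    (by change l ^ (d - 2 * i) * b = l ^ (d - 2 * i) * 0; rw [H l hl, mul_zero])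
  exact hb0 h1

/-- evaluation into a truncated polynomial ring, which shows that powers of `β` survive -/
theorem pow_beta_ne_zero (hd : Fintype.card V = d + 2) (ht : Function.Injective t)
    (ht0 : ∀ v, t v ≠ 0) (s : ℕ) (hs : ∀ S : Finset V, S ∉ K.faces → S.Nonempty → s ≤ S.card)
    {α β : ArtinianReduction K t d} (h : ∀ v, yy K t d v = α + t v • β)
    (n : ℕ) (hn : n < s) : β ^ n ≠ 0 := by
  classical
  set J : Ideal (Polynomial k) := Ideal.span {Polynomial.X ^ s} with hJ
  set Q := Polynomial k ⧸ J with hQ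
  set x : Q := Ideal.Quotient.mk J Polynomial.X with hx
  have hxs : x ^ s = 0 := by
    rw [hx, ← map_pow, Ideal.Quotient.eq_zero_iff_mem]
    exact Ideal.subset_span rfl
  set f : MvPolynomial V k →ₐ[k] Q := aeval fun v => (dd t v)⁻¹ • x with hf
  have hker : ∀ a ∈ faceIdeal k K ⊔ momentIdeal t d, f a = 0 := by
    have hle : faceIdeal k K ⊔ momentIdeal t d ≤ RingHom.ker f.toRingHom := by
      apply sup_le
      · rw [faceIdeal, Ideal.span_le]
        rintro _ ⟨S, hS, hSK, rfl⟩
        rw [SetLike.mem_coe, RingHom.mem_ker]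
        change f _ = 0
        rw [map_prod]
        have : ∀ v ∈ S, f (X v) = algebraMap k Q (dd t v)⁻¹ * x := by
          intro v _; rw [hf, aeval_X]; exact Algebra.smul_def (R := k) (A := Polynomial k ⧸ J) ((dd t v)⁻¹) x
        rw [Finset.prod_congr rfl this, Finset.prod_mul_distrib, Finset.prod_const]
        obtain ⟨c, hc⟩ := Nat.exists_eq_add_of_le (hs S hSK hS)
        rw [hc, pow_add, hxs, zero_mul, mul_zero]
      · rw [momentIdeal, Ideal.span_le]
        rintro _ ⟨j, hj1, hjd, rfl⟩
        rw [SetLike.mem_coe, RingHom.mem_ker]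
        change f _ = 0
        rw [momentForm, map_sum]
        have : ∀ v ∈ (Finset.univ : Finset V), f (C (t v ^ j) * X v) =
            ((Polynomial.X ^ j : Polynomial k).eval (t v) /
              ∏ u ∈ Finset.univ.erase v, (t v - t u)) • x := by
          intro v _
          rw [map_mul, hf, aeval_X, aeval_C, ← Algebra.smul_def, smul_smul]
          congr 1
          simp [dd, div_eq_mul_inv]
        rw [Finset.sum_congr rfl this, ← Finset.sum_smul]
        have hc := Lagrange.coeff_eq_sum (F := k) (s := (Finset.univ : Finset V)) (v := t)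
          ht.injOn (P := Polynomial.X ^ j) (by
            rw [Polynomial.degree_X_pow, Finset.card_univ, hd]
            exact_mod_cast (by omega : j < d + 2))
        rw [← hc, Finset.card_univ, hd, Polynomial.coeff_X_pow, if_neg (by omega), zero_smul]
    intro a ha
    exact hle ha
  set g : ArtinianReduction K t d →ₐ[k] Q := Ideal.Quotient.liftₐ _ f hker with hg
  have hgxi : ∀ v, g (xi K t d v) = (dd t v)⁻¹ • x := by
    intro v
    have : g (xi K t d v) = f (X v) := rfl
    rw [this, hf, aeval_X]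
  have hgy : ∀ v, g (yy K t d v) = t v • x := by
    intro v
    rw [yy, map_smul, hgxi, smul_smul]
    congr 1
    have := dd_ne_zero ht v
    field_simp
  have hcard : 1 < Fintype.card V := by omega
  obtain ⟨a, b, hab⟩ := Fintype.exists_pair_of_one_lt_card hcard
  have htab : t a - t b ≠ 0 := sub_ne_zero.mpr fun h => hab (ht h)
  have hgβ : g β = x := by
    have e1 : (t a - t b) • g β = (t a - t b) • x := by
      have ha := hgy a
      have hb := hgy b
      rw [h a, map_add, map_smul] at ha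
      rw [h b, map_add, map_smul] at hb
      calc (t a - t b) • g β = (g α + t a • g β) - (g α + t b • g β) := by
            rw [sub_smul]; abel
        _ = (t a - t b) • x := by rw [ha, hb, sub_smul]
    exact smul_right_injective _ htab e1
  intro hzero
  have h0 : x ^ n = 0 := by
    rw [← hgβ, ← map_pow, hzero, map_zero]
  rw [hx, ← map_pow, Ideal.Quotient.eq_zero_iff_mem, hJ, Ideal.mem_span_singleton,
    Polynomial.X_pow_dvd_iff] at h0
  have := h0 n hn
  simp at this

end Cases
section Final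

theorem card_le_of_nonface {ι : Type} [Fintype ι] [DecidableEq ι] [Nontrivial ι]
    {S : Finset (ι ⊕ ι)} (hS : S ∉ (joinBoundary ι).faces) (hne : S.Nonempty) :
    Fintype.card ι ≤ S.card := by
  classical
  have h : ¬ ((∃ i, Sum.inl i ∉ S) ∧ (∃ i, Sum.inr i ∉ S)) := fun h => hS ⟨hne, h⟩
  rw [not_and_or] at h
  rcases h with h | h
  · push Not at h
    rw [← Finset.card_univ, ← Finset.card_map (⟨Sum.inl, Sum.inl_injective⟩ : ι ↪ ι ⊕ ι)]
    apply Finset.card_le_card
    intro x hx
    obtain ⟨i, -, rfl⟩ := Finset.mem_map.mp hx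
    exact h i
  · push Not at h
    rw [← Finset.card_univ, ← Finset.card_map (⟨Sum.inr, Sum.inr_injective⟩ : ι ↪ ι ⊕ ι)]
    apply Finset.card_le_card
    intro x hx
    obtain ⟨i, -, rfl⟩ := Finset.mem_map.mp hx
    exact h i

variable {k : Type u} [Field k]

theorem prod_left {ι : Type} [Fintype ι] [DecidableEq ι] [Nontrivial ι] (t : ι ⊕ ι → k) (d : ℕ)
    {α β : ArtinianReduction (joinBoundary ι) t d}
    (h : ∀ v, yy (joinBoundary ι) t d v = α + t v • β) :
    ∏ i, (α + t (Sum.inl i) • β) = 0 := by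
  classical
  have h1 := prod_line_eq_zero (joinBoundary ι) t d
    (S := Finset.univ.map (⟨Sum.inl, Sum.inl_injective⟩ : ι ↪ ι ⊕ ι))
    (by simp) (by
      rintro ⟨-, ⟨i, hi⟩, -⟩
      exact hi (by simp)) h
  rw [Finset.prod_map] at h1
  exact h1

theorem prod_right {ι : Type} [Fintype ι] [DecidableEq ι] [Nontrivial ι] (t : ι ⊕ ι → k) (d : ℕ)
    {α β : ArtinianReduction (joinBoundary ι) t d}
    (h : ∀ v, yy (joinBoundary ι) t d v = α + t v • β) :
    ∏ i, (α + t (Sum.inr i) • β) = 0 := by
  classical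
  have h1 := prod_line_eq_zero (joinBoundary ι) t d
    (S := Finset.univ.map (⟨Sum.inr, Sum.inr_injective⟩ : ι ↪ ι ⊕ ι))
    (by simp) (by
      rintro ⟨-, -, ⟨i, hi⟩⟩
      exact hi (by simp)) h
  rw [Finset.prod_map] at h1
  exact h1

theorem alg_two {A : Type*} [CommRing A] (c : k →+* A) (two : (2 : A) = 0) (α β : A)
    (t0 t1 t2 s0 s1 s2 e e' : k) (hee : e ≠ e')
    (h1 : t0 + t1 + t2 = e) (h2 : t0 * t1 + t0 * t2 + t1 * t2 = 1 + e) (h3 : t0 * t1 * t2 = 1)
    (h1' : s0 + s1 + s2 = e') (h2' : s0 * s1 + s0 * s2 + s1 * s2 = 1 + e')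
    (h3' : s0 * s1 * s2 = 1)
    (hl : (α + c t0 * β) * (α + c t1 * β) * (α + c t2 * β) = 0)
    (hr : (α + c s0 * β) * (α + c s1 * β) * (α + c s2 * β) = 0) (a b : A) :
    (a * α + b * β) ^ 4 = 0 := by
  have g1 := congrArg c h1
  have g2 := congrArg c h2
  have g3 := congrArg c h3
  have g1' := congrArg c h1'
  have g2' := congrArg c h2'
  have g3' := congrArg c h3'
  simp only [map_add, map_mul, map_one] at g1 g2 g3 g1' g2' g3'
  have R1 : α ^ 3 + c e * (α ^ 2 * β) + (1 + c e) * (α * β ^ 2) + β ^ 3 = 0 := by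
    linear_combination hl - α ^ 2 * β * g1 - α * β ^ 2 * g2 - β ^ 3 * g3
  have R2 : α ^ 3 + c e' * (α ^ 2 * β) + (1 + c e') * (α * β ^ 2) + β ^ 3 = 0 := by
    linear_combination hr - α ^ 2 * β * g1' - α * β ^ 2 * g2' - β ^ 3 * g3'
  have hinv : c (e - e')⁻¹ * (c e - c e') = 1 := by
    rw [← map_sub, ← map_mul, inv_mul_cancel₀ (sub_ne_zero.mpr hee), map_one]
  have G : α ^ 2 * β + α * β ^ 2 = 0 := by
    linear_combination (-(α ^ 2 * β + α * β ^ 2)) * hinv + c (e - e')⁻¹ * (R1 - R2)
  have R0 : α ^ 3 + α * β ^ 2 + β ^ 3 = 0 := by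
    linear_combination R1 - c e * G
  have hα4 : α ^ 4 = 0 := by
    linear_combination α * R0 - β * G
  have hβ4 : β ^ 4 = 0 := by
    linear_combination β * R0 - α * G + β * G - (α * β ^ 3) * two
  linear_combination a ^ 4 * hα4 + b ^ 4 * hβ4
    + (2 * a ^ 3 * b * α ^ 3 * β + 3 * a ^ 2 * b ^ 2 * α ^ 2 * β ^ 2
      + 2 * a * b ^ 3 * α * β ^ 3) * two

/-- The characteristic two case. -/
theorem fail_two [CharP k 2] (t : Fin 3 ⊕ Fin 3 → k) (ht : Function.Injective t)
    (ht0 : ∀ v, t v ≠ 0) (e e' : k) (hee : e ≠ e')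
    (h1 : t (Sum.inl 0) + t (Sum.inl 1) + t (Sum.inl 2) = e)
    (h2 : t (Sum.inl 0) * t (Sum.inl 1) + t (Sum.inl 0) * t (Sum.inl 2) +
      t (Sum.inl 1) * t (Sum.inl 2) = 1 + e)
    (h3 : t (Sum.inl 0) * t (Sum.inl 1) * t (Sum.inl 2) = 1)
    (h1' : t (Sum.inr 0) + t (Sum.inr 1) + t (Sum.inr 2) = e')
    (h2' : t (Sum.inr 0) * t (Sum.inr 1) + t (Sum.inr 0) * t (Sum.inr 2) +
      t (Sum.inr 1) * t (Sum.inr 2) = 1 + e')
    (h3' : t (Sum.inr 0) * t (Sum.inr 1) * t (Sum.inr 2) = 1) :
    ¬ HardLefschetz (joinBoundary (Fin 3)) t 4 := by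
  obtain ⟨α, hα, β, hβ, h⟩ := exists_line (joinBoundary (Fin 3)) t 4 (by simp) ht
  have hl := prod_left t 4 h
  have hr := prod_right t 4 h
  rw [Fin.prod_univ_three] at hl hr
  have two : (2 : ArtinianReduction (joinBoundary (Fin 3)) t 4) = 0 := by
    have : algebraMap k (ArtinianReduction (joinBoundary (Fin 3)) t 4) 2 = 0 := by
      rw [show (2 : k) = 0 from CharTwo.two_eq_zero, map_zero]
    rw [← this, map_ofNat]
  simp only [Algebra.smul_def] at hl hr
  apply not_hardLefschetz_of_kills (joinBoundary (Fin 3)) t 4 0 (by norm_num) 1 ?_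
    (one_ne_zero_quot _ _ _) ?_
  · exact ⟨1, isHomogeneous_one _ _, by simp⟩
  · intro l hl'
    obtain ⟨a, b, rfl⟩ := mem_span_line (joinBoundary (Fin 3)) t 4 ht ht0 h hl'
    simp only [Algebra.smul_def]
    rw [mul_one]
    exact alg_two (algebraMap k _) two α β _ _ _ _ _ _ e e' hee h1 h2 h3 h1' h2' h3' hl hr _ _


theorem prod_two (p : ℕ) [Fact p.Prime] {A : Type*} [CommRing A] [CharP A p]
    (φ : ZMod p →+* A) (α β a u : A) :
    ∏ x : ZMod p × ZMod p, (α + (a + φ x.1 + φ x.2 * u) * β) =
      (α ^ p - α * β ^ (p - 1) + (a ^ p - a) * β ^ p) ^ p -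
      (α ^ p - α * β ^ (p - 1) + (a ^ p - a) * β ^ p) * ((u ^ p - u) * β ^ p) ^ (p - 1) := by
  have hp : 0 < p := (Fact.out : p.Prime).pos
  rw [Fintype.prod_prod_type_right, ← prod_add_mul p φ]
  refine Finset.prod_congr rfl fun j _ => ?_
  have h1 : ∀ i : ZMod p, α + (a + φ i + φ j * u) * β = (α + (a + φ j * u) * β) + φ i * β := by
    intro i; ring
  simp only [h1]
  rw [prod_add_mul p φ, add_pow_char, mul_pow, add_pow_char, mul_pow, ← map_pow,
    ZMod.pow_card]
  obtain ⟨q, rfl⟩ : ∃ q, p = q + 1 := ⟨p - 1, by omega⟩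
  rw [Nat.add_sub_cancel]
  ring

theorem alg_odd (p : ℕ) [Fact p.Prime] {A : Type*} [CommRing A] [CharP A p] [CharP k p]
    (c : k →+* A) (φ : ZMod p →+* k) (u a₁ a₂ : k) (α β : A)
    (hl : ∏ x : ZMod p × ZMod p, (α + c (a₁ + φ x.1 + φ x.2 * u) * β) = 0)
    (hr : ∏ x : ZMod p × ZMod p, (α + c (a₂ + φ x.1 + φ x.2 * u) * β) = 0)
    (hne : ∏ x : ZMod p × ZMod p, (a₁ - a₂ + φ x.1 + φ x.2 * u) ≠ 0) (a b : A) :
    (a * α + b * β) ^ (p ^ 2) * β ^ p = 0 := by
  have hp : 0 < p := (Fact.out : p.Prime).pos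
  set δ : k := u ^ p - u with hδ
  set l₁ : k := (a₁ ^ p - a₁) ^ p - (a₁ ^ p - a₁) * δ ^ (p - 1) with hl₁
  set l₂ : k := (a₂ ^ p - a₂) ^ p - (a₂ ^ p - a₂) * δ ^ (p - 1) with hl₂
  have hl12 : l₁ - l₂ ≠ 0 := by
    have h1 := prod_two p φ (a₁ - a₂) 1 0 u
    have h2 : ∏ x : ZMod p × ZMod p, (a₁ - a₂ + (0 + φ x.1 + φ x.2 * u) * 1) =
        ∏ x : ZMod p × ZMod p, (a₁ - a₂ + φ x.1 + φ x.2 * u) :=
      Finset.prod_congr rfl fun x _ => by ring
    rw [h2] at h1
    rw [h1] at hne
    convert hne using 1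
    simp only [one_pow, mul_one, zero_pow hp.ne', sub_zero, add_zero]
    have e1 : (a₁ - a₂) ^ p - (a₁ - a₂) = (a₁ ^ p - a₁) - (a₂ ^ p - a₂) := by
      rw [sub_pow_char]; ring
    have e2 : ((a₁ ^ p - a₁) - (a₂ ^ p - a₂)) ^ p = (a₁ ^ p - a₁) ^ p - (a₂ ^ p - a₂) ^ p :=
      sub_pow_char _ _
    rw [e1, e2, hl₁, hl₂]
    ring
  set P₀ : A := α ^ p - α * β ^ (p - 1) with hP₀
  set B : A := β ^ p with hB
  have hBB : B ^ (p - 1) * B = B ^ p := by
    rw [← pow_succ, Nat.sub_add_cancel hp]
  have key : ∀ x : k, (P₀ + (c x ^ p - c x) * B) ^ p -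
      (P₀ + (c x ^ p - c x) * B) * ((c u ^ p - c u) * B) ^ (p - 1) =
      P₀ ^ p - P₀ * (c δ ^ (p - 1) * B ^ (p - 1)) +
        c ((x ^ p - x) ^ p - (x ^ p - x) * δ ^ (p - 1)) * B ^ p := by
    intro x
    rw [add_pow_char, mul_pow, mul_pow]
    simp only [map_sub, map_mul, map_pow, hδ]
    rw [← hBB]
    ring
  have hexp : ∀ x : k, ∏ y : ZMod p × ZMod p, (α + c (x + φ y.1 + φ y.2 * u) * β) =
      P₀ ^ p - P₀ * (c δ ^ (p - 1) * B ^ (p - 1)) +
        c ((x ^ p - x) ^ p - (x ^ p - x) * δ ^ (p - 1)) * B ^ p := by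
    intro x
    rw [← key x]
    have := prod_two p (c.comp φ) α β (c x) (c u)
    rw [← this]
    refine Finset.prod_congr rfl fun y _ => ?_
    simp only [map_add, map_mul, RingHom.comp_apply]
  rw [hexp] at hl hr
  have hBp : B ^ p = 0 := by
    have h1 : c (l₁ - l₂) * B ^ p = 0 := by
      rw [map_sub]
      linear_combination hl - hr
    have h2 : c (l₁ - l₂)⁻¹ * c (l₁ - l₂) = 1 := by
      rw [← map_mul, inv_mul_cancel₀ hl12, map_one]
    linear_combination (-(B ^ p)) * h2 + c (l₁ - l₂)⁻¹ * h1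
  have hP : P₀ ^ p = P₀ * (c δ ^ (p - 1) * B ^ (p - 1)) := by
    linear_combination hl - c l₁ * hBp
  have hP' : P₀ ^ p = (α ^ p) ^ p - α ^ p * (β ^ (p - 1)) ^ p := by
    rw [hP₀, sub_pow_char, mul_pow]
  have hβ : (β ^ (p - 1)) ^ p * B = B ^ p := by
    rw [hB, ← pow_mul, ← pow_mul, ← pow_add]
    congr 1
    obtain ⟨q, rfl⟩ : ∃ q, p = q + 1 := ⟨p - 1, by omega⟩
    rw [Nat.add_sub_cancel]; ring
  have hα : (α ^ p) ^ p * B = 0 := by
    have : (α ^ p) ^ p = P₀ * (c δ ^ (p - 1) * B ^ (p - 1)) + α ^ p * (β ^ (p - 1)) ^ p := by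
      rw [← hP, hP']; ring
    rw [this]
    linear_combination P₀ * c δ ^ (p - 1) * hBB + α ^ p * hβ
      + (P₀ * c δ ^ (p - 1) + α ^ p) * hBp
  have hlp : (a * α + b * β) ^ (p ^ 2) = (a ^ p) ^ p * (α ^ p) ^ p + (b ^ p) ^ p * B ^ p := by
    rw [pow_two, pow_mul, add_pow_char, add_pow_char]
    simp only [mul_pow, hB]
  rw [hlp, hBp, mul_zero, add_zero, mul_assoc, hα, mul_zero]

/-- The odd characteristic case. -/
theorem fail_odd (p : ℕ) [Fact p.Prime] [CharP k p] (hp3 : 3 ≤ p) (φ : ZMod p →+* k)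
    (u a₁ a₂ : k)
    (ht : Function.Injective (Sum.elim (fun x : ZMod p × ZMod p => a₁ + φ x.1 + φ x.2 * u)
      (fun x : ZMod p × ZMod p => a₂ + φ x.1 + φ x.2 * u)))
    (ht0 : ∀ v, Sum.elim (fun x : ZMod p × ZMod p => a₁ + φ x.1 + φ x.2 * u)
      (fun x : ZMod p × ZMod p => a₂ + φ x.1 + φ x.2 * u) v ≠ 0)
    (hne : ∏ x : ZMod p × ZMod p, (a₁ - a₂ + φ x.1 + φ x.2 * u) ≠ 0) :
    ¬ HardLefschetz (joinBoundary (ZMod p × ZMod p))
      (Sum.elim (fun x : ZMod p × ZMod p => a₁ + φ x.1 + φ x.2 * u)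
        (fun x : ZMod p × ZMod p => a₂ + φ x.1 + φ x.2 * u)) (2 * p ^ 2 - 2) := by
  have hp : 0 < p := (Fact.out : p.Prime).pos
  set t := Sum.elim (fun x : ZMod p × ZMod p => a₁ + φ x.1 + φ x.2 * u)
      (fun x : ZMod p × ZMod p => a₂ + φ x.1 + φ x.2 * u) with htdef
  have hcardι : Fintype.card (ZMod p × ZMod p) = p ^ 2 := by
    rw [Fintype.card_prod, ZMod.card, sq]
  have hpp : p + p + p ≤ p ^ 2 := by nlinarith
  have hd : Fintype.card ((ZMod p × ZMod p) ⊕ (ZMod p × ZMod p)) = (2 * p ^ 2 - 2) + 2 := by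
    rw [Fintype.card_sum, hcardι]; omega
  obtain ⟨α, hα, β, hβ, h⟩ := exists_line (joinBoundary (ZMod p × ZMod p)) t
    (2 * p ^ 2 - 2) hd ht
  have hl := prod_left t (2 * p ^ 2 - 2) h
  have hr := prod_right t (2 * p ^ 2 - 2) h
  simp only [Algebra.smul_def, htdef, Sum.elim_inl, Sum.elim_inr] at hl hr
  have : Nontrivial (ArtinianReduction (joinBoundary (ZMod p × ZMod p)) t (2 * p ^ 2 - 2)) :=
    ⟨1, 0, one_ne_zero_quot _ _ _⟩
  have : CharP (ArtinianReduction (joinBoundary (ZMod p × ZMod p)) t (2 * p ^ 2 - 2)) p :=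
    charP_of_injective_algebraMap (algebraMap k _).injective p
  apply not_hardLefschetz_of_kills (joinBoundary (ZMod p × ZMod p)) t (2 * p ^ 2 - 2) p
    (by omega) (β ^ p) (pow_mem_gradedPiece _ _ _ hβ p) ?_ ?_
  · exact pow_beta_ne_zero (joinBoundary (ZMod p × ZMod p)) t (2 * p ^ 2 - 2) hd ht ht0 (p ^ 2)
      (fun S hS hne' => hcardι ▸ card_le_of_nonface hS hne') h p (by omega)
  · intro l hl'
    obtain ⟨a, b, rfl⟩ := mem_span_line (joinBoundary (ZMod p × ZMod p)) t (2 * p ^ 2 - 2)
      ht ht0 h hl'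
    simp only [Algebra.smul_def]
    obtain ⟨c, hc⟩ : ∃ c, 2 * p ^ 2 - 2 - 2 * p = c + p ^ 2 :=
      ⟨2 * p ^ 2 - 2 - 2 * p - p ^ 2, by omega⟩
    rw [hc, pow_add, mul_assoc, alg_odd p (algebraMap k _) φ u a₁ a₂ α β hl hr hne, mul_zero]


/-- odd characteristic: existence of the parameters -/
theorem exists_odd (k : Type u) [Field k] [Infinite k] (p : ℕ) [Fact p.Prime] [CharP k p]
    (hp3 : 3 ≤ p) :
    ∃ (t : (ZMod p × ZMod p) ⊕ (ZMod p × ZMod p) → k), Function.Injective t ∧
      (∀ v, t v ≠ 0) ∧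
      ¬ HardLefschetz (joinBoundary (ZMod p × ZMod p)) t (2 * p ^ 2 - 2) := by
  classical
  set φ : ZMod p →+* k := ZMod.castHom (dvd_refl p) k with hφ
  have hφinj : Function.Injective φ := φ.injective
  obtain ⟨u, hu⟩ := Infinite.exists_notMem_finset (Finset.univ.image φ)
  have hu' : ∀ i, φ i ≠ u := fun i h => hu (by rw [← h]; simp)
  set U : ZMod p × ZMod p → k := fun x => φ x.1 + φ x.2 * u with hU
  have hUsub : ∀ x y, U x - U y = U (x - y) := by
    intro x y
    simp only [hU, Prod.fst_sub, Prod.snd_sub, map_sub]; ring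
  have hU0 : ∀ x, U x = 0 → x = 0 := by
    rintro ⟨i, j⟩ h
    simp only [hU] at h
    by_cases hj : j = 0
    · subst hj
      simp only [map_zero, zero_mul, add_zero] at h
      have : i = 0 := hφinj (by rw [h, map_zero])
      rw [this]; rfl
    · exfalso
      apply hu' (-i / j)
      have hj' : φ j ≠ 0 := fun h0 => hj (hφinj (by rw [h0, map_zero]))
      rw [map_div₀, map_neg, div_eq_iff hj']
      linear_combination -h
  have hUinj : Function.Injective U := by
    intro x y h
    have := hU0 (x - y) (by rw [← hUsub, h, sub_self])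
    exact sub_eq_zero.mp this
  obtain ⟨a₁, ha₁⟩ := Infinite.exists_notMem_finset (Finset.univ.image fun x => - U x)
  obtain ⟨a₂, ha₂⟩ := Infinite.exists_notMem_finset
    ((Finset.univ.image fun x => - U x) ∪ (Finset.univ.image fun x => a₁ + U x))
  have h1 : ∀ x, a₁ + U x ≠ 0 := fun x h => ha₁ (Finset.mem_image.mpr
    ⟨x, Finset.mem_univ _, (eq_neg_of_add_eq_zero_left h).symm⟩)
  have h2 : ∀ x, a₂ + U x ≠ 0 := fun x h => ha₂ (Finset.mem_union_left _ (Finset.mem_image.mpr
    ⟨x, Finset.mem_univ _, (eq_neg_of_add_eq_zero_left h).symm⟩))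
  have h3 : ∀ x, a₁ - a₂ + U x ≠ 0 := fun x h => ha₂ (Finset.mem_union_right _
    (Finset.mem_image.mpr ⟨x, Finset.mem_univ _, by linear_combination h⟩))
  refine ⟨Sum.elim (fun x : ZMod p × ZMod p => a₁ + φ x.1 + φ x.2 * u)
      (fun x : ZMod p × ZMod p => a₂ + φ x.1 + φ x.2 * u), ?_, ?_, ?_⟩
  · rintro (x | x) (y | y) hxy
    · simp only [Sum.elim_inl] at hxy
      rw [hUinj (show U x = U y by simp only [hU]; linear_combination hxy)]
    · exfalso
      simp only [Sum.elim_inl, Sum.elim_inr] at hxy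
      apply h3 (x - y)
      rw [← hUsub]; simp only [hU]; linear_combination hxy
    · exfalso
      simp only [Sum.elim_inl, Sum.elim_inr] at hxy
      apply h3 (y - x)
      rw [← hUsub]; simp only [hU]; linear_combination -hxy
    · simp only [Sum.elim_inr] at hxy
      rw [hUinj (show U x = U y by simp only [hU]; linear_combination hxy)]
  · rintro (x | x)
    · simp only [Sum.elim_inl]; rw [add_assoc]; exact h1 x
    · simp only [Sum.elim_inr]; rw [add_assoc]; exact h2 x
  · apply fail_odd p hp3 φ u a₁ a₂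
    · rintro (x | x) (y | y) hxy
      · simp only [Sum.elim_inl] at hxy
        rw [hUinj (show U x = U y by simp only [hU]; linear_combination hxy)]
      · exfalso
        simp only [Sum.elim_inl, Sum.elim_inr] at hxy
        apply h3 (x - y)
        rw [← hUsub]; simp only [hU]; linear_combination hxy
      · exfalso
        simp only [Sum.elim_inl, Sum.elim_inr] at hxy
        apply h3 (y - x)
        rw [← hUsub]; simp only [hU]; linear_combination -hxy
      · simp only [Sum.elim_inr] at hxy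
        rw [hUinj (show U x = U y by simp only [hU]; linear_combination hxy)]
    · rintro (x | x)
      · simp only [Sum.elim_inl]; rw [add_assoc]; exact h1 x
      · simp only [Sum.elim_inr]; rw [add_assoc]; exact h2 x
    · rw [Finset.prod_ne_zero_iff]
      intro x _
      rw [add_assoc]; exact h3 x

/-- the orbit of `w` under the Moebius map `w ↦ 1 / (1 + w)` of order three. -/
def orb (w : k) : Fin 3 → k := ![w, (1 + w)⁻¹, (1 + w) * w⁻¹]

theorem orb_sum (w : k) : orb w 0 + orb w 1 + orb w 2 = w + (1 + w)⁻¹ + (1 + w) * w⁻¹ := rfl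

theorem orb_pair [CharP k 2] (w : k) (hw : w ≠ 0) (hw1 : 1 + w ≠ 0) :
    orb w 0 * orb w 1 + orb w 0 * orb w 2 + orb w 1 * orb w 2 =
      1 + (w + (1 + w)⁻¹ + (1 + w) * w⁻¹) := by
  have two : (2 : k) = 0 := CharTwo.two_eq_zero
  have h1 : w * w⁻¹ = 1 := mul_inv_cancel₀ hw
  have h2 : (1 + w) * (1 + w)⁻¹ = 1 := mul_inv_cancel₀ hw1
  change w * (1 + w)⁻¹ + w * ((1 + w) * w⁻¹) + (1 + w)⁻¹ * ((1 + w) * w⁻¹) = _
  linear_combination (1 + w⁻¹) * h2 + w * h1 - (1 + w)⁻¹ * two

theorem orb_prod (w : k) (hw : w ≠ 0) (hw1 : 1 + w ≠ 0) :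
    orb w 0 * orb w 1 * orb w 2 = 1 := by
  have h1 : w * w⁻¹ = 1 := mul_inv_cancel₀ hw
  have h2 : (1 + w) * (1 + w)⁻¹ = 1 := mul_inv_cancel₀ hw1
  change w * (1 + w)⁻¹ * ((1 + w) * w⁻¹) = 1
  linear_combination w * w⁻¹ * h2 + h1

theorem orb_cubic [CharP k 2] (w : k) (hw : w ≠ 0) (hw1 : 1 + w ≠ 0) (r : k) :
    (r - orb w 0) * (r - orb w 1) * (r - orb w 2) =
      r ^ 3 + (w + (1 + w)⁻¹ + (1 + w) * w⁻¹) * r ^ 2 +
        (1 + (w + (1 + w)⁻¹ + (1 + w) * w⁻¹)) * r + 1 := by
  have two : (2 : k) = 0 := CharTwo.two_eq_zero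
  have h1 := orb_sum w
  have h2 := orb_pair w hw hw1
  have h3 := orb_prod w hw hw1
  linear_combination (-r ^ 2) * h1 + r * h2 - h3 -
    ((w + (1 + w)⁻¹ + (1 + w) * w⁻¹) * r ^ 2 + 1) * two

theorem orb_ne_zero (w : k) (hw : w ≠ 0) (hw1 : 1 + w ≠ 0) (i : Fin 3) : orb w i ≠ 0 := by
  fin_cases i
  · exact hw
  · exact inv_ne_zero hw1
  · exact mul_ne_zero hw1 (inv_ne_zero hw)

theorem orb_ne_one (w : k) (hw : w ≠ 0) (hw1 : 1 + w ≠ 0) (hw2 : w ≠ 1) (i : Fin 3) :
    orb w i ≠ 1 := by
  have h1 : w * w⁻¹ = 1 := mul_inv_cancel₀ hw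
  have h2 : (1 + w) * (1 + w)⁻¹ = 1 := mul_inv_cancel₀ hw1
  fin_cases i
  · exact hw2
  · intro h
    change (1 + w)⁻¹ = 1 at h
    apply hw
    rw [h] at h2
    linear_combination h2
  · intro h
    change (1 + w) * w⁻¹ = 1 at h
    apply inv_ne_zero hw
    linear_combination h - h1

theorem orb_injective [CharP k 2] (w : k) (hw : w ≠ 0) (hw1 : 1 + w ≠ 0)
    (hwq : w ^ 2 + w + 1 ≠ 0) : Function.Injective (orb w) := by
  have two : (2 : k) = 0 := CharTwo.two_eq_zero
  have h1 : w * w⁻¹ = 1 := mul_inv_cancel₀ hw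
  have h2 : (1 + w) * (1 + w)⁻¹ = 1 := mul_inv_cancel₀ hw1
  have a01 : orb w 0 ≠ orb w 1 := by
    intro h
    change w = (1 + w)⁻¹ at h
    apply hwq
    linear_combination (1 + w) * h + h2 + two
  have a02 : orb w 0 ≠ orb w 2 := by
    intro h
    change w = (1 + w) * w⁻¹ at h
    apply hwq
    linear_combination w * h + (1 + w) * h1 + (1 + w) * two
  have a12 : orb w 1 ≠ orb w 2 := by
    intro h
    change (1 + w)⁻¹ = (1 + w) * w⁻¹ at h
    apply hwq
    linear_combination (-(w * (1 + w))) * h + w * h2 - (1 + w) ^ 2 * h1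
  intro i j hij
  fin_cases i <;> fin_cases j <;> first | rfl | (exfalso; first | exact a01 hij | exact a02 hij | exact a12 hij | exact a01 hij.symm | exact a02 hij.symm | exact a12 hij.symm)

/-- characteristic two: existence of the parameters -/
theorem exists_two (k : Type u) [Field k] [Infinite k] [CharP k 2] :
    ∃ (t : Fin 3 ⊕ Fin 3 → k), Function.Injective t ∧ (∀ v, t v ≠ 0) ∧
      ¬ HardLefschetz (joinBoundary (Fin 3)) t 4 := by
  classical
  have two : (2 : k) = 0 := CharTwo.two_eq_zero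
  -- the polynomial `X^2 + X + 1`
  set q : Polynomial k := Polynomial.X ^ 2 + Polynomial.X + 1 with hq
  have hq0 : q ≠ 0 := by
    intro h
    have := congrArg (Polynomial.eval 0) h
    simp [hq] at this
  obtain ⟨w, hw⟩ := Infinite.exists_notMem_finset (q.roots.toFinset ∪ {0, 1})
  have hw0 : w ≠ 0 := by rintro rfl; apply hw; simp
  have hw1 : w ≠ 1 := by rintro rfl; apply hw; simp
  have hwq : w ^ 2 + w + 1 ≠ 0 := by
    intro h; apply hw
    apply Finset.mem_union_left
    rw [Multiset.mem_toFinset, Polynomial.mem_roots hq0, Polynomial.IsRoot]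
    simpa [hq] using h
  have hw1' : 1 + w ≠ 0 := by
    intro h; apply hw1
    linear_combination h - two
  obtain ⟨z, hz⟩ := Infinite.exists_notMem_finset
    (q.roots.toFinset ∪ {0, 1} ∪ {w, (1 + w)⁻¹, (1 + w) * w⁻¹})
  have hz0 : z ≠ 0 := by rintro rfl; apply hz; simp
  have hz1 : z ≠ 1 := by rintro rfl; apply hz; simp
  have hzq : z ^ 2 + z + 1 ≠ 0 := by
    intro h; apply hz
    apply Finset.mem_union_left
    apply Finset.mem_union_left
    rw [Multiset.mem_toFinset, Polynomial.mem_roots hq0, Polynomial.IsRoot]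
    simpa [hq] using h
  have hz1' : 1 + z ≠ 0 := by
    intro h; apply hz1
    linear_combination h - two
  have hzw : z ≠ w := by rintro rfl; apply hz; simp
  have hzw1 : z ≠ (1 + w)⁻¹ := by rintro rfl; apply hz; simp
  have hzw2 : z ≠ (1 + w) * w⁻¹ := by rintro rfl; apply hz; simp
  have hee : w + (1 + w)⁻¹ + (1 + w) * w⁻¹ ≠ z + (1 + z)⁻¹ + (1 + z) * z⁻¹ := by
    intro h
    have hc := orb_cubic z hz0 hz1' z
    have hc' := orb_cubic w hw0 hw1' z
    rw [h, ← hc] at hc'
    have h0 : (z - orb z 0) = 0 := by change z - z = 0; ring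
    rw [h0, zero_mul, zero_mul] at hc'
    rcases mul_eq_zero.mp hc' with h' | h'
    · rcases mul_eq_zero.mp h' with h' | h'
      · exact hzw (sub_eq_zero.mp h')
      · exact hzw1 (sub_eq_zero.mp h')
    · exact hzw2 (sub_eq_zero.mp h')
  have hroot : ∀ v : k, v ≠ 0 → 1 + v ≠ 0 → ∀ i, (orb v i) ^ 3 +
      (v + (1 + v)⁻¹ + (1 + v) * v⁻¹) * (orb v i) ^ 2 +
        (1 + (v + (1 + v)⁻¹ + (1 + v) * v⁻¹)) * (orb v i) + 1 = 0 := by
    intro v hv hv1 i
    rw [← orb_cubic v hv hv1]
    fin_cases i <;> simp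
  have hcross : ∀ i j, orb w i ≠ orb z j := by
    intro i j hij
    have e1 := hroot w hw0 hw1' i
    have e2 := hroot z hz0 hz1' j
    rw [← hij] at e2
    have e3 : ((w + (1 + w)⁻¹ + (1 + w) * w⁻¹) - (z + (1 + z)⁻¹ + (1 + z) * z⁻¹)) *
        (orb w i * (orb w i + 1)) = 0 := by
      linear_combination e1 - e2
    rcases mul_eq_zero.mp e3 with h' | h'
    · exact hee (sub_eq_zero.mp h')
    · rcases mul_eq_zero.mp h' with h' | h'
      · exact orb_ne_zero w hw0 hw1' i h'
      · apply orb_ne_one w hw0 hw1' hw1 i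
        linear_combination h' - two
  refine ⟨Sum.elim (orb w) (orb z), ?_, ?_, ?_⟩
  · rintro (i | i) (j | j) hij
    · rw [orb_injective w hw0 hw1' hwq hij]
    · exact absurd hij (hcross i j)
    · exact absurd hij.symm (hcross j i)
    · rw [orb_injective z hz0 hz1' hzq hij]
  · rintro (i | i)
    · exact orb_ne_zero w hw0 hw1' i
    · exact orb_ne_zero z hz0 hz1' i
  · apply fail_two (Sum.elim (orb w) (orb z)) ?_ ?_ _ _ hee (orb_sum w) (orb_pair w hw0 hw1')
      (orb_prod w hw0 hw1') (orb_sum z) (orb_pair z hz0 hz1') (orb_prod z hz0 hz1')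
    · rintro (i | i) (j | j) hij
      · rw [orb_injective w hw0 hw1' hwq hij]
      · exact absurd hij (hcross i j)
      · exact absurd hij.symm (hcross j i)
      · rw [orb_injective z hz0 hz1' hzq hij]
    · rintro (i | i)
      · exact orb_ne_zero w hw0 hw1' i
      · exact orb_ne_zero z hz0 hz1' i

/-- **Main theorem.** For every infinite field `k` of positive characteristic there are a finite
simplicial complex `Δ` which is a PL sphere of dimension `m`, and pairwise distinct nonzero
`t_v ∈ k`, such that the Artinian reduction of `Δ` by the moment-curve system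
`p_v = (t_v, ..., t_v ^ (m + 1))` does not have the Lefschetz property. -/
theorem result (k : Type u) [Field k] [Infinite k] (hchar : ringChar k ≠ 0) :
    ∃ (V : Type) (_ : Fintype V) (_ : DecidableEq V) (Δ : AbstractSimplicialComplex V)
      (m : ℕ) (t : V → k), IsPLSphere m Δ ∧ Function.Injective t ∧ (∀ v, t v ≠ 0) ∧
        ¬ HardLefschetz Δ t (m + 1) := by
  have hprime : (ringChar k).Prime :=
    (CharP.char_is_prime_or_zero k (ringChar k)).resolve_right hchar
  have : Fact (ringChar k).Prime := ⟨hprime⟩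
  by_cases h2 : ringChar k = 2
  · have : CharP k 2 := h2 ▸ ringChar.charP k
    obtain ⟨t, ht, ht0, hL⟩ := exists_two k
    exact ⟨Fin 3 ⊕ Fin 3, inferInstance, inferInstance, joinBoundary (Fin 3), 3, t,
      isPLSphere_joinBoundary 3 (by simp), ht, ht0, hL⟩
  · have hp3 : 3 ≤ ringChar k := by
      have := hprime.two_le
      omega
    obtain ⟨t, ht, ht0, hL⟩ := exists_odd k (ringChar k) hp3
    have hcard : Fintype.card (ZMod (ringChar k) × ZMod (ringChar k)) = ringChar k ^ 2 := by
      rw [Fintype.card_prod, ZMod.card, sq]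
    have h9 : 9 ≤ ringChar k ^ 2 := by nlinarith
    refine ⟨(ZMod (ringChar k) × ZMod (ringChar k)) ⊕ (ZMod (ringChar k) × ZMod (ringChar k)),
      inferInstance, inferInstance, joinBoundary _, 2 * ringChar k ^ 2 - 3, t,
      isPLSphere_joinBoundary _ (by rw [hcard]; omega), ht, ht0, ?_⟩
    have : 2 * ringChar k ^ 2 - 3 + 1 = 2 * ringChar k ^ 2 - 2 := by omega
    rw [this]
    exact hL

end Final

end Pool.Agent.Results.MP_487945_co.MomentCurvePosChar
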